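import Mathlib

/-! Block R: locally affine functions on intervals (module TD_R_A1). -/

open scoped Topology

namespace Pool.Agent.TD.R

/-- two affine functions which agree on an interval with more than one point near a point -/
private theorem coef_eq {J : Set ℝ} (hJ : IsPreconnected J) (hn : J.Nontrivial) {t α β α' β' : ℝ}
    (ht : t ∈ J) (h1 : ∀ᶠ s in 𝓝[J] t, α * s + β = α' * s + β') : α = α' ∧ β = β' := by
  have hacc := hJ.preperfect_of_nontrivial hn t ht
  have h2 : ∀ᶠ s in 𝓝[≠] t ⊓ Filter.principal J, s ∈ J ∧ s ≠ t ∧ α * s + β = α' * s + β' := by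
    have e1 : ∀ᶠ s in 𝓝[≠] t ⊓ Filter.principal J, s ∈ J :=
      Filter.Eventually.filter_mono inf_le_right (Filter.eventually_principal.mpr fun _ h => h)
    have e2 : ∀ᶠ s in 𝓝[≠] t ⊓ Filter.principal J, s ≠ t :=
      Filter.Eventually.filter_mono inf_le_left self_mem_nhdsWithin
    have e3 : ∀ᶠ s in 𝓝[≠] t ⊓ Filter.principal J, α * s + β = α' * s + β' := by
      refine Filter.Eventually.filter_mono ?_ h1
      exact inf_le_inf_right _ nhdsWithin_le_nhds
    filter_upwards [e1, e2, e3] with s a b c using ⟨a, b, c⟩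
  have : (𝓝[≠] t ⊓ Filter.principal J).NeBot := hacc
  obtain ⟨s, -, hst, hs⟩ := h2.exists
  have h0 := h1.self_of_nhdsWithin ht
  have hd : (α - α') * (s - t) = 0 := by linear_combination hs - h0
  have hα : α = α' := by
    rcases mul_eq_zero.mp hd with h | h
    · linarith
    · exact absurd (by linarith : s = t) hst
  refine ⟨hα, ?_⟩
  rw [hα] at h0
  linarith

/-- A locally affine function on an interval is determined by its germ at a point. -/
theorem affine_of_germ {J : Set ℝ} (hJ : J.OrdConnected) {h : ℝ → ℝ}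
    (hh : ∀ s ∈ J, ∃ α β : ℝ, ∀ᶠ s' in 𝓝[J] s, h s' = α * s' + β) {s0 α β : ℝ} (hs0 : s0 ∈ J)
    (h0 : ∀ᶠ s' in 𝓝[J] s0, h s' = α * s' + β) : ∀ s ∈ J, h s = α * s + β := by
  rcases J.subsingleton_or_nontrivial with hsub | hn
  · intro s hs
    rw [hsub hs hs0]
    exact h0.self_of_nhdsWithin hs0
  · have hp : IsPreconnected J := hJ.isPreconnected
    have : PreconnectedSpace J := Subtype.preconnectedSpace hp
    let S : Set J := {s | ∀ᶠ t : J in 𝓝 s, h t = α * t + β}
    have key : ∀ (s : J) (p : ℝ → Prop), (∀ᶠ t in 𝓝[J] (s : ℝ), p t) ↔ ∀ᶠ t : J in 𝓝 s, p t := by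
      intro s p
      rw [nhdsWithin_eq_map_subtype_coe s.2, Filter.eventually_map]
    have hopen : IsOpen S := isOpen_setOfPred_eventually_nhds
    have hclosed : IsClosed S := by
      rw [← closure_subset_iff_isClosed]
      intro s hs
      obtain ⟨α', β', h1⟩ := hh s s.2
      rw [key s (fun t => h t = α' * t + β')] at h1
      have h2 := eventually_eventually_nhds.mpr h1
      obtain ⟨t, ht1, ht2⟩ := (mem_closure_iff_frequently.mp hs).and_eventually h2 |>.exists
      have h3 : ∀ᶠ u in 𝓝[J] (t : ℝ), α * u + β = α' * u + β' := by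
        rw [key t (fun u => α * u + β = α' * u + β')]
        have ht1' : ∀ᶠ u : J in 𝓝 t, h u = α * u + β := ht1
        filter_upwards [ht1', ht2] with u a b
        rw [← a, b]
      obtain ⟨ha, hb⟩ := coef_eq hp hn t.2 h3
      rw [← ha, ← hb] at h1
      exact h1
    have huniv : S = Set.univ := by
      refine IsClopen.eq_univ ⟨hclosed, hopen⟩ ⟨⟨s0, hs0⟩, ?_⟩
      exact (key ⟨s0, hs0⟩ (fun t => h t = α * t + β)).mp h0
    intro s hs
    have hmem : (⟨s, hs⟩ : J) ∈ S := by rw [huniv]; trivial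
    have hmem2 : ∀ᶠ t : J in 𝓝 (⟨s, hs⟩ : J), h t = α * t + β := hmem
    exact hmem2.self_of_nhds

/-- A locally affine function on an interval is affine. -/
theorem affine_of_locally {J : Set ℝ} (hJ : J.OrdConnected) {h : ℝ → ℝ}
    (hh : ∀ s ∈ J, ∃ α β : ℝ, ∀ᶠ s' in 𝓝[J] s, h s' = α * s' + β) :
    ∃ α β : ℝ, ∀ s ∈ J, h s = α * s + β := by
  rcases J.eq_empty_or_nonempty with rfl | ⟨s0, hs0⟩
  · exact ⟨0, 0, fun s hs => absurd hs (Set.notMem_empty s)⟩
  · obtain ⟨α, β, h0⟩ := hh s0 hs0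
    exact ⟨α, β, affine_of_germ hJ hh hs0 h0⟩

end Pool.Agent.TD.R
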