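import Pool.Agent.TD.R.Defs
import Pool.Agent.TD.R.A1
import Pool.Agent.TD.MT.C5

/-! Block R: paths in the open part of the box (module TD_R_A2). -/

open scoped Topology NNReal

namespace Pool.Agent.TD.R

variable {I E : Type} [Fintype I] [Fintype E] {M : Matroid E} {e0 : E} {δ : ℝ}

/-- A path in the open part of the box which is a segment in logarithmic coordinates. -/
structure IsPath (M : Matroid E) (e0 : E) (δ : ℝ) (γ : ℝ → (I → ℝ) × (E → ℝ))
    (p0 p : (I → ℝ) × (E → ℝ)) : Prop where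
  cont : ContinuousOn γ (Set.Icc 0 1)
  zero : γ 0 = p0
  one : γ 1 = p
  mem : ∀ s ∈ Set.Icc (0 : ℝ) 1, γ s ∈ Om I M e0 δ
  aff : ∀ (n : I → ℝ) (l : E → ℝ) (c : ℝ), ∀ s ∈ Set.Icc (0 : ℝ) 1,
    Aff n l c (γ s) = (1 - s) * Aff n l c p0 + s * Aff n l c p

/-- The fan of a matroid is a cone. -/
theorem bergM_smul {y : E → ℝ} (hy : BergM M y) {s : ℝ} (hs : 0 ≤ s) :
    BergM M (fun e => s * y e) := by
  intro C hC e he
  obtain ⟨f, hf, hfe, hle⟩ := hy C hC e he
  exact ⟨f, hf, hfe, mul_le_mul_of_nonneg_left hle hs⟩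

/-- The segment in logarithmic coordinates. -/
noncomputable def gam (p0 p : (I → ℝ) × (E → ℝ)) (s : ℝ) : (I → ℝ) × (E → ℝ) :=
  (fun i => Real.exp ((1 - s) * Real.log (p0.1 i) + s * Real.log (p.1 i)),
    fun e => (1 - s) * p0.2 e + s * p.2 e)

theorem gam_continuous (p0 p : (I → ℝ) × (E → ℝ)) : Continuous (gam p0 p) := by
  unfold gam
  refine Continuous.prodMk (continuous_pi fun i => ?_) (continuous_pi fun e => ?_)
  · exact Real.continuous_exp.comp (by fun_prop)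
  · fun_prop

theorem conv_lt {a b d s : ℝ} (ha : a < d) (hb : b < d) (hs0 : 0 ≤ s) (hs1 : s ≤ 1) :
    (1 - s) * a + s * b < d := by
  rcases eq_or_lt_of_le hs0 with h | h
  · rw [← h]; linarith
  · have h1 : (1 - s) * a ≤ (1 - s) * d := mul_le_mul_of_nonneg_left ha.le (by linarith)
    have h2 : s * b < s * d := mul_lt_mul_of_pos_left hb h
    linarith

theorem isPath_gam {p0 p : (I → ℝ) × (E → ℝ)} (hp0 : p0 ∈ Om I M e0 δ) (hp : p ∈ Om I M e0 δ)
    (hB : ∀ s ∈ Set.Icc (0 : ℝ) 1, BergM M (fun e => (1 - s) * p0.2 e + s * p.2 e)) :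
    IsPath M e0 δ (gam p0 p) p0 p := by
  obtain ⟨⟨ha1, ha2, ha3, ha4⟩, ha5⟩ := hp0
  obtain ⟨⟨hb1, hb2, hb3, hb4⟩, hb5⟩ := hp
  refine ⟨(gam_continuous p0 p).continuousOn, ?_, ?_, ?_, ?_⟩
  · refine Prod.ext (funext fun i => ?_) (funext fun e => ?_)
    · simp [gam, Real.exp_log (ha5 i)]
    · simp [gam]
  · refine Prod.ext (funext fun i => ?_) (funext fun e => ?_)
    · simp [gam, Real.exp_log (hb5 i)]
    · simp [gam]
  · rintro s ⟨hs0, hs1⟩
    refine ⟨⟨fun i => ⟨(Real.exp_pos _).le, ?_⟩, fun e => ?_, ?_, hB s ⟨hs0, hs1⟩⟩,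
      fun i => Real.exp_pos _⟩
    · have h1 := Real.log_lt_log (ha5 i) (ha1 i).2
      have h2 := Real.log_lt_log (hb5 i) (hb1 i).2
      have hδ : 0 < δ := lt_trans (ha5 i) (ha1 i).2
      exact (Real.lt_log_iff_exp_lt hδ).1 (conv_lt h1 h2 hs0 hs1)
    · have h1 := abs_lt.1 (ha2 e)
      have h2 := abs_lt.1 (hb2 e)
      rw [abs_lt]
      constructor
      · have := conv_lt (neg_lt.1 h1.1) (neg_lt.1 h2.1) hs0 hs1
        show -δ < (1 - s) * p0.2 e + s * p.2 e
        linarith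
      · exact conv_lt h1.2 h2.2 hs0 hs1
    · show (1 - s) * p0.2 e0 + s * p.2 e0 = 0
      rw [ha3, hb3]
      ring
  · intro n l c s _
    unfold Aff gam
    simp only [Real.log_exp]
    have e1 : ∑ i, n i * ((1 - s) * Real.log (p0.1 i) + s * Real.log (p.1 i)) =
        (1 - s) * ∑ i, n i * Real.log (p0.1 i) + s * ∑ i, n i * Real.log (p.1 i) := by
      rw [Finset.mul_sum, Finset.mul_sum, ← Finset.sum_add_distrib]
      exact Finset.sum_congr rfl fun i _ => by ring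
    have e2 : ∑ e, l e * ((1 - s) * p0.2 e + s * p.2 e) =
        (1 - s) * ∑ e, l e * p0.2 e + s * ∑ e, l e * p.2 e := by
      rw [Finset.mul_sum, Finset.mul_sum, ← Finset.sum_add_distrib]
      exact Finset.sum_congr rfl fun i _ => by ring
    rw [e1, e2]
    ring

/-- `Om` is star-shaped about the points with `y = 0`. -/
theorem exists_path {p0 p : (I → ℝ) × (E → ℝ)} (hp0 : p0 ∈ Om I M e0 δ) (h0 : p0.2 = 0)
    (hp : p ∈ Om I M e0 δ) : ∃ γ, IsPath M e0 δ γ p0 p := by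
  refine ⟨gam p0 p, isPath_gam hp0 hp fun s hs => ?_⟩
  have h1 := bergM_smul hp.1.2.2.2 hs.1
  have h2 : (fun e => (1 - s) * p0.2 e + s * p.2 e) = fun e => s * p.2 e := by
    funext e
    rw [h0]
    simp
  rw [h2]
  exact h1

/-- `Om` is locally star-shaped. -/
theorem exists_path_loc (hE : M.E = Set.univ) (hl : ∀ e, M.Indep {e})
    {p0 : (I → ℝ) × (E → ℝ)} (hp0 : p0 ∈ Om I M e0 δ) :
    ∀ᶠ p in 𝓝[Om I M e0 δ] p0, ∃ γ, IsPath M e0 δ γ p0 p := by
  obtain ⟨M', -, -, δ', hδ', hM'⟩ := exists_star hE hl hp0.1.2.2.2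
  have h1 : ∀ᶠ p : (I → ℝ) × (E → ℝ) in 𝓝 p0, ∀ e, |p.2 e - p0.2 e| < δ' := by
    rw [Filter.eventually_all]
    intro e
    have hc : Continuous fun p : (I → ℝ) × (E → ℝ) => |p.2 e - p0.2 e| := by fun_prop
    have := hc.tendsto p0
    simp only [sub_self, abs_zero] at this
    exact this.eventually (gt_mem_nhds hδ')
  filter_upwards [nhdsWithin_le_nhds h1, self_mem_nhdsWithin] with p hp hpO
  refine ⟨gam p0 p, isPath_gam hp0 hpO ?_⟩
  have h2 : BergM M' (fun e => p.2 e - p0.2 e) := by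
    rw [← hM' _ hp]
    have h3 : p0.2 + (fun e => p.2 e - p0.2 e) = p.2 := by
      funext e
      simp
    rw [h3]
    exact hpO.1.2.2.2
  intro s hs
  have h4 : ∀ e, |s * (p.2 e - p0.2 e)| < δ' := by
    intro e
    rw [abs_mul, abs_of_nonneg hs.1]
    exact lt_of_le_of_lt (mul_le_of_le_one_left (abs_nonneg _) hs.2) (hp e)
  have h5 := (hM' _ h4).2 (bergM_smul h2 hs.1)
  have h6 : (fun e => (1 - s) * p0.2 e + s * p.2 e) = p0.2 + fun e => s * (p.2 e - p0.2 e) := by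
    funext e
    simp only [Pi.add_apply]
    ring
  rw [h6]
  exact h5

/-- (GLOB) a function which is locally affine in the logarithmic coordinates is affine. -/
theorem glob {g : (I → ℝ) × (E → ℝ) → ℝ} (hg : ∀ p ∈ Om I M e0 δ, ∃ n l c,
    ∀ᶠ p' in 𝓝[Om I M e0 δ] p, g p' = Aff n l c p') {p0 : (I → ℝ) × (E → ℝ)}
    (hp0 : p0 ∈ Om I M e0 δ) (h0 : p0.2 = 0) {n : I → ℝ} {l : E → ℝ} {c : ℝ}
    (h : ∀ᶠ p' in 𝓝[Om I M e0 δ] p0, g p' = Aff n l c p') :
    ∀ p ∈ Om I M e0 δ, g p = Aff n l c p := by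
  intro p hp
  obtain ⟨γ, hγ⟩ := exists_path hp0 h0 hp
  have ht : ∀ s ∈ Set.Icc (0 : ℝ) 1,
      Filter.Tendsto γ (𝓝[Set.Icc 0 1] s) (𝓝[Om I M e0 δ] (γ s)) := by
    intro s hs
    rw [tendsto_nhdsWithin_iff]
    exact ⟨hγ.cont s hs, by
      filter_upwards [self_mem_nhdsWithin] with s' hs'
      exact hγ.mem s' hs'⟩
  have hh : ∀ s ∈ Set.Icc (0 : ℝ) 1, ∃ α β : ℝ, ∀ᶠ s' in 𝓝[Set.Icc 0 1] s,
      g (γ s') = α * s' + β := by
    intro s hs
    obtain ⟨n', l', c', h'⟩ := hg (γ s) (hγ.mem s hs)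
    refine ⟨Aff n' l' c' p - Aff n' l' c' p0, Aff n' l' c' p0, ?_⟩
    filter_upwards [(ht s hs).eventually h', self_mem_nhdsWithin] with s' h1 h2
    rw [h1, hγ.aff n' l' c' s' h2]
    ring
  have h00 : (0 : ℝ) ∈ Set.Icc (0 : ℝ) 1 := ⟨le_refl _, zero_le_one⟩
  have h11 : (1 : ℝ) ∈ Set.Icc (0 : ℝ) 1 := ⟨zero_le_one, le_refl _⟩
  have h3 : ∀ᶠ s' in 𝓝[Set.Icc (0 : ℝ) 1] 0,
      g (γ s') = (Aff n l c p - Aff n l c p0) * s' + Aff n l c p0 := by
    have h4 := ht 0 h00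
    rw [hγ.zero] at h4
    filter_upwards [h4.eventually h, self_mem_nhdsWithin] with s' h1 h2
    rw [h1, hγ.aff n l c s' h2]
    ring
  have h5 := affine_of_germ (h := fun s => g (γ s)) Set.ordConnected_Icc hh h00 h3 1 h11
  simp only [hγ.one] at h5
  rw [h5]
  ring

theorem bergM_zero (hl : ∀ e, M.Indep {e}) : BergM M (fun _ => 0) := by
  intro C hC e he
  by_contra hcon
  push Not at hcon
  have h1 : C ⊆ {e} := by
    intro f hf
    by_contra hfe
    exact absurd (le_refl (0 : ℝ)) (not_le.2 (hcon f hf hfe))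
  exact hC.dep.not_indep ((hl e).subset h1)

theorem pt_mem (hl : ∀ e, M.Indep {e}) (hδ : 0 < δ) {u : I → ℝ} (hu : ∀ i, 0 < u i ∧ u i < δ) :
    ((u, fun _ => 0) : (I → ℝ) × (E → ℝ)) ∈ Om I M e0 δ := by
  refine ⟨⟨fun i => ⟨(hu i).1.le, (hu i).2⟩, fun e => ?_, rfl, bergM_zero hl⟩, fun i => (hu i).1⟩
  show |(0 : ℝ)| < δ
  rw [abs_zero]
  exact hδ

/-- The base points. -/
theorem base_mem (hl : ∀ e, M.Indep {e}) (hδ : 0 < δ) :
    ((fun _ => δ / 2, fun _ => 0) : (I → ℝ) × (E → ℝ)) ∈ Om I M e0 δ :=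
  pt_mem hl hδ fun _ => ⟨by linarith, by linarith⟩

/-- The coefficients of the `log t_i` and the constant are determined by the function. -/
theorem aff_uniq (hl : ∀ e, M.Indep {e}) (hδ : 0 < δ) {n n' : I → ℝ} {l l' : E → ℝ} {c c' : ℝ}
    (h : ∀ p ∈ Om I M e0 δ, Aff n l c p = Aff n' l' c' p) : n = n' ∧ c = c' := by
  classical
  have key : ∀ u : I → ℝ, (∀ i, 0 < u i ∧ u i < δ) →
      ∑ i, n i * Real.log (u i) + c = ∑ i, n' i * Real.log (u i) + c' := by
    intro u hu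
    have h1 := h _ (pt_mem hl hδ hu)
    simpa [Aff] using h1
  have h0 := key (fun _ => δ / 2) fun _ => ⟨by linarith, by linarith⟩
  have hn : n = n' := by
    funext i
    have h1 := key (Function.update (fun _ => δ / 2) i (δ / 4)) (by
      intro j
      by_cases hj : j = i
      · subst hj
        rw [Function.update_self]
        exact ⟨by linarith, by linarith⟩
      · rw [Function.update_of_ne hj]
        exact ⟨by linarith, by linarith⟩)
    have h2 : ∀ m : I → ℝ, ∑ j, m j * Real.log (Function.update (fun _ => δ / 2) i (δ / 4) j) =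
        ∑ j, m j * Real.log (δ / 2) + m i * (Real.log (δ / 4) - Real.log (δ / 2)) := by
      intro m
      rw [← Finset.add_sum_erase _ _ (Finset.mem_univ i),
        ← Finset.add_sum_erase _ (fun j => m j * Real.log (δ / 2)) (Finset.mem_univ i)]
      rw [Function.update_self]
      have h3 : ∑ x ∈ Finset.univ.erase i,
          m x * Real.log (Function.update (fun _ => δ / 2) i (δ / 4) x) =
          ∑ x ∈ Finset.univ.erase i, m x * Real.log (δ / 2) := by
        refine Finset.sum_congr rfl fun j hj => ?_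
        rw [Function.update_of_ne (Finset.ne_of_mem_erase hj)]
      rw [h3]
      ring
    rw [h2 n, h2 n'] at h1
    have h4 : n i * (Real.log (δ / 4) - Real.log (δ / 2)) =
        n' i * (Real.log (δ / 4) - Real.log (δ / 2)) := by linarith
    have h5 : Real.log (δ / 4) < Real.log (δ / 2) :=
      Real.log_lt_log (by linarith) (by linarith)
    exact mul_right_cancel₀ (by linarith) h4
  refine ⟨hn, ?_⟩
  rw [hn] at h0
  linarith

end Pool.Agent.TD.R
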