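import Pool.Agent.TD.X2.Defs

/-!
# Block R (PAPER3.md): smooth points in the general sense: definitions

`T` is a set of functions on `P` (the tropicalization in a chart).  A general smooth chart of `T`
at `w` is a homeomorphism of a neighbourhood of `w` in `T` with an open subset of
`[0,∞)^k × Σ_M` (`[0,∞) = exp [-∞,∞)`) which identifies the integral affine functions.
-/

open scoped Topology NNReal

namespace Pool.Agent.TD.R

variable {N k I E : Type} [AddCommGroup N] {P : AddSubmonoid N}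

/-- The model `[0,∞)^k × Σ_M`. -/
def Mdl (k : Type) {E : Type} (M : Matroid E) (e0 : E) : Set ((k → ℝ) × (E → ℝ)) :=
  {p | (∀ i, 0 ≤ p.1 i) ∧ p.2 e0 = 0 ∧ BergM M p.2}

/-- `g` is near `b` an integral affine function of the logarithms of the characters. -/
def AffC (T : Set (P → ℝ)) (b : P → ℝ) (g : (P → ℝ) → ℝ) : Prop :=
  ∃ (m m' : P) (c : ℝ), b m ≠ 0 ∧ b m' ≠ 0 ∧
    ∀ᶠ b' in 𝓝[T] b, g b' = Real.log (b' m) - Real.log (b' m') + c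

/-- `g` is near `b` an integral affine function of the finite coordinates. -/
def AffX [Fintype k] [Fintype E] (T : Set (P → ℝ)) (x : k → (P → ℝ) → ℝ) (y : E → (P → ℝ) → ℝ)
    (b : P → ℝ) (g : (P → ℝ) → ℝ) : Prop :=
  ∃ (n : k → ℤ) (l : E → ℤ) (c : ℝ), (∀ i, x i b = 0 → n i = 0) ∧
    ∀ᶠ b' in 𝓝[T] b, g b' = ∑ i, (n i : ℝ) * Real.log (x i b') + ∑ e, (l e : ℝ) * y e b' + c

/-- The coordinate map. -/
def cm (x : k → (P → ℝ) → ℝ) (y : E → (P → ℝ) → ℝ) (b : P → ℝ) : (k → ℝ) × (E → ℝ) :=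
  (fun i => x i b, fun e => y e b)

/-- General smooth chart at `w`. -/
structure GChart [Fintype k] [Fintype E] (T : Set (P → ℝ)) (w : P → ℝ)
    (x : k → (P → ℝ) → ℝ) (y : E → (P → ℝ) → ℝ) (M : Matroid E) (e0 : E) (U : Set (P → ℝ)) :
    Prop where
  ground : M.E = Set.univ
  loopless : ∀ e, M.Indep {e}
  isOpen : IsOpen U
  hw : w ∈ T
  w_mem : w ∈ U
  inj : Set.InjOn (cm x y) (T ∩ U)
  homeo : ∀ b ∈ T ∩ U, Filter.map (cm x y) (𝓝[T] b) = 𝓝[Mdl k M e0] (cm x y b)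
  affx : ∀ b ∈ T ∩ U, ∀ i, x i b ≠ 0 → AffC T b fun b' => Real.log (x i b')
  affy : ∀ b ∈ T ∩ U, ∀ e, AffC T b (y e)
  aff : ∀ b ∈ T ∩ U, ∀ m : P, b m ≠ 0 → AffX T x y b fun b' => Real.log (b' m)

/-- The box in the model. -/
def Bx (I : Type) {E : Type} (M : Matroid E) (e0 : E) (δ : ℝ) : Set ((I → ℝ) × (E → ℝ)) :=
  {p | (∀ i, 0 ≤ p.1 i ∧ p.1 i < δ) ∧ (∀ e, |p.2 e| < δ) ∧ p.2 e0 = 0 ∧ BergM M p.2}

/-- Chart centred at `w`; `L` is the inverse of the coordinate map. -/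
structure LM [Fintype I] [Fintype E] (T : Set (P → ℝ)) (w : P → ℝ)
    (t : I → (P → ℝ) → ℝ) (y : E → (P → ℝ) → ℝ) (M : Matroid E) (e0 : E) (U : Set (P → ℝ))
    (δ : ℝ) (L : (I → ℝ) × (E → ℝ) → P → ℝ) : Prop where
  ground : M.E = Set.univ
  loopless : ∀ e, M.Indep {e}
  isOpen : IsOpen U
  hw : w ∈ T
  w_mem : w ∈ U
  δpos : 0 < δ
  tw : ∀ i, t i w = 0
  yw : ∀ e, y e w = 0
  maps : ∀ b ∈ T ∩ U, cm t y b ∈ Bx I M e0 δ
  Lmaps : ∀ p ∈ Bx I M e0 δ, L p ∈ T ∩ U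
  left : ∀ b ∈ T ∩ U, L (cm t y b) = b
  right : ∀ p ∈ Bx I M e0 δ, cm t y (L p) = p
  cont : ContinuousOn (cm t y) (T ∩ U)
  Lcont : ContinuousOn L (Bx I M e0 δ)
  afft : ∀ b ∈ T ∩ U, ∀ i, t i b ≠ 0 → AffC T b fun b' => Real.log (t i b')
  affy : ∀ b ∈ T ∩ U, ∀ e, AffC T b (y e)
  aff : ∀ b ∈ T ∩ U, ∀ m : P, b m ≠ 0 → AffX T t y b fun b' => Real.log (b' m)

/-- The elements of `T` are homomorphisms to `[0,∞)`. -/
def IsTr (T : Set (P → ℝ)) : Prop := ∀ b ∈ T, b 0 = 1 ∧ (∀ m m', b (m + m') = b m * b m') ∧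
  ∀ m, 0 ≤ b m

/-- The open stratum is dense. -/
def Dns (T : Set (P → ℝ)) : Prop := ∀ b ∈ T, ∀ V ∈ 𝓝 b, ∃ b' ∈ T ∩ V, ∀ m, b' m ≠ 0

/-- The open part of the box. -/
def Om (I : Type) {E : Type} (M : Matroid E) (e0 : E) (δ : ℝ) : Set ((I → ℝ) × (E → ℝ)) :=
  {p | p ∈ Bx I M e0 δ ∧ ∀ i, 0 < p.1 i}

/-- Affine functions of the logarithmic coordinates. -/
noncomputable def Aff [Fintype I] [Fintype E] (n : I → ℝ) (l : E → ℝ) (c : ℝ)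
    (p : (I → ℝ) × (E → ℝ)) : ℝ := ∑ i, n i * Real.log (p.1 i) + ∑ e, l e * p.2 e + c

end Pool.Agent.TD.R
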