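import Pool.Agent.TD.R.Defs
import Pool.Agent.TD.MT.C5
import Pool.Agent.TD.MT.C6

/-! Block R: centring a general smooth chart (module TD_R_S1). -/

open scoped Topology NNReal

namespace Pool.Agent.TD.R

variable {N k E : Type} [AddCommGroup N] {P : AddSubmonoid N} [Fintype k] [Fintype E]
  {T : Set (P → ℝ)} {w : P → ℝ} {x : k → (P → ℝ) → ℝ} {y : E → (P → ℝ) → ℝ} {M : Matroid E}
  {e0 : E} {U : Set (P → ℝ)}

namespace S1

theorem mem_mdl (h : GChart T w x y M e0 U) {b : P → ℝ} (hb : b ∈ T ∩ U) :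
    cm x y b ∈ Mdl k M e0 := by
  have h1 : Mdl k M e0 ∈ Filter.map (cm x y) (𝓝[T] b) := by
    rw [h.homeo b hb]
    exact self_mem_nhdsWithin
  exact mem_of_mem_nhdsWithin (s := T) hb.1 h1

theorem cwa (h : GChart T w x y M e0 U) {b : P → ℝ} (hb : b ∈ T ∩ U) :
    ContinuousWithinAt (cm x y) T b := by
  show Filter.map (cm x y) (𝓝[T] b) ≤ 𝓝 (cm x y b)
  rw [h.homeo b hb]
  exact nhdsWithin_le_nhds

theorem con (h : GChart T w x y M e0 U) : ContinuousOn (cm x y) (T ∩ U) :=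
  fun _ hb => (cwa h hb).mono Set.inter_subset_left

theorem nhdsT (h : GChart T w x y M e0 U) {b : P → ℝ} (hb : b ∈ T ∩ U) : T ∩ U ∈ 𝓝[T] b :=
  Filter.inter_mem self_mem_nhdsWithin (mem_nhdsWithin_of_mem_nhds (h.isOpen.mem_nhds hb.2))

/-- The inverse of the coordinate map. -/
noncomputable def inv (T : Set (P → ℝ)) (x : k → (P → ℝ) → ℝ) (y : E → (P → ℝ) → ℝ)
    (U : Set (P → ℝ)) : (k → ℝ) × (E → ℝ) → P → ℝ :=
  Function.invFunOn (cm x y) (T ∩ U)

theorem inv_left (h : GChart T w x y M e0 U) {b : P → ℝ} (hb : b ∈ T ∩ U) :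
    inv T x y U (cm x y b) = b :=
  h.inj.leftInvOn_invFunOn hb

theorem inv_cont (h : GChart T w x y M e0 U) {b : P → ℝ} (hb : b ∈ T ∩ U) :
    ContinuousWithinAt (inv T x y U) (Mdl k M e0) (cm x y b) := by
  show Filter.Tendsto (inv T x y U) (𝓝[Mdl k M e0] (cm x y b)) (𝓝 (inv T x y U (cm x y b)))
  rw [← h.homeo b hb, inv_left h hb, Filter.tendsto_map'_iff]
  have h1 : (inv T x y U ∘ cm x y) =ᶠ[𝓝[T] b] id := by
    filter_upwards [nhdsT h hb] with b' hb'
    exact inv_left h hb'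
  exact (Filter.tendsto_congr' h1).2 (Filter.tendsto_id.mono_left nhdsWithin_le_nhds)

/-- The change of coordinates. -/
noncomputable def kap (w : P → ℝ) (x : k → (P → ℝ) → ℝ) (y : E → (P → ℝ) → ℝ)
    (p : ({i : k // x i w = 0} → ℝ) × (E ⊕ {i : k // x i w ≠ 0} → ℝ)) :
    (k → ℝ) × (E → ℝ) :=
  (fun i => @dite ℝ (x i w = 0) (Classical.propDecidable _) (fun h => p.1 ⟨i, h⟩)
    fun h => x i w * Real.exp (p.2 (Sum.inr ⟨i, h⟩)), fun e => y e w + p.2 (Sum.inl e))

theorem kap_pos {p : ({i : k // x i w = 0} → ℝ) × (E ⊕ {i : k // x i w ≠ 0} → ℝ)} {i : k}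
    (h : x i w = 0) : (kap w x y p).1 i = p.1 ⟨i, h⟩ := by
  show dite _ _ _ = _
  rw [dif_pos h]

theorem kap_neg {p : ({i : k // x i w = 0} → ℝ) × (E ⊕ {i : k // x i w ≠ 0} → ℝ)} {i : k}
    (h : x i w ≠ 0) : (kap w x y p).1 i = x i w * Real.exp (p.2 (Sum.inr ⟨i, h⟩)) := by
  show dite _ _ _ = _
  rw [dif_neg h]

theorem kap_snd (p : ({i : k // x i w = 0} → ℝ) × (E ⊕ {i : k // x i w ≠ 0} → ℝ)) (e : E) :
    (kap w x y p).2 e = y e w + p.2 (Sum.inl e) := rfl

theorem kap_cont (w : P → ℝ) (x : k → (P → ℝ) → ℝ) (y : E → (P → ℝ) → ℝ) :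
    Continuous (kap w x y) := by
  refine Continuous.prodMk (continuous_pi fun i => ?_) (continuous_pi fun e => ?_)
  · by_cases h : x i w = 0
    · simp only [dif_pos h]
      exact (continuous_apply _).comp continuous_fst
    · simp only [dif_neg h]
      exact continuous_const.mul
        (Real.continuous_exp.comp ((continuous_apply _).comp continuous_snd))
  · exact continuous_const.add ((continuous_apply _).comp continuous_snd)

theorem kap_zero (w : P → ℝ) (x : k → (P → ℝ) → ℝ) (y : E → (P → ℝ) → ℝ) :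
    kap w x y 0 = cm x y w := by
  refine Prod.ext (funext fun i => ?_) (funext fun e => ?_)
  · by_cases h : x i w = 0
    · rw [kap_pos h]
      show (0 : ℝ) = x i w
      exact h.symm
    · rw [kap_neg h]
      show x i w * Real.exp 0 = x i w
      rw [Real.exp_zero, mul_one]
  · rw [kap_snd]
    show y e w + 0 = y e w
    rw [add_zero]

/-- Independence of the instance. -/
theorem sum_inst {α : Type} (i1 i2 : Fintype α) (f : α → ℝ) :
    (@Finset.univ α i1).sum f = (@Finset.univ α i2).sum f := by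
  rw [Subsingleton.elim i1 i2]

/-- The open set of the model. -/
def O1 (w : P → ℝ) (x : k → (P → ℝ) → ℝ) (y : E → (P → ℝ) → ℝ) (δ : ℝ) :
    Set ((k → ℝ) × (E → ℝ)) :=
  {q | (∀ i : {i : k // x i w = 0}, q.1 i.1 < δ) ∧ (∀ j : {i : k // x i w ≠ 0}, 0 < q.1 j.1 ∧
    |Real.log (q.1 j.1) - Real.log (x j.1 w)| < δ) ∧ ∀ e, |q.2 e - y e w| < δ}

theorem isOpen_log (l ds : ℝ) : IsOpen {x : ℝ | 0 < x ∧ |Real.log x - l| < ds} := by
  have h1 : ContinuousOn (fun x : ℝ => |Real.log x - l|) (Set.Ioi 0) := by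
    have h2 : ContinuousOn Real.log (Set.Ioi 0) :=
      Real.continuousOn_log.mono fun x hx => (ne_of_gt hx : x ≠ 0)
    exact (h2.sub continuousOn_const).abs
  exact h1.isOpen_inter_preimage isOpen_Ioi (isOpen_Iio (a := ds))

theorem isOpen_O1 (w : P → ℝ) (x : k → (P → ℝ) → ℝ) (y : E → (P → ℝ) → ℝ) (δ : ℝ) :
    IsOpen (O1 w x y δ) := by
  have hc1 : ∀ i : k, Continuous fun q : (k → ℝ) × (E → ℝ) => q.1 i := fun i =>
    (continuous_apply _).comp continuous_fst
  have hc2 : ∀ e : E, Continuous fun q : (k → ℝ) × (E → ℝ) => q.2 e := fun e =>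
    (continuous_apply _).comp continuous_snd
  have e : O1 w x y δ = (⋂ i : {i : k // x i w = 0}, {q : (k → ℝ) × (E → ℝ) | q.1 i.1 < δ}) ∩
      ((⋂ j : {i : k // x i w ≠ 0}, (fun q : (k → ℝ) × (E → ℝ) => q.1 j.1) ⁻¹'
        {t : ℝ | 0 < t ∧ |Real.log t - Real.log (x j.1 w)| < δ}) ∩
      ⋂ e : E, {q : (k → ℝ) × (E → ℝ) | |q.2 e - y e w| < δ}) := by
    ext q
    simp only [O1, Set.mem_setOf_eq, Set.mem_inter_iff, Set.mem_iInter, Set.mem_preimage]
  rw [e]
  refine (isOpen_iInter_of_finite fun i => ?_).inter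
    ((isOpen_iInter_of_finite fun j => ?_).inter (isOpen_iInter_of_finite fun e => ?_))
  · exact isOpen_lt (hc1 _) continuous_const
  · exact (isOpen_log _ _).preimage (hc1 _)
  · exact isOpen_lt ((hc2 e).sub continuous_const).abs continuous_const

end S1

/-- A general smooth chart gives a centred chart: `t` are the coordinates `x i` which vanish at
`w`, the other coordinates are `y e - y e (w)` and `log x i - log x i (w)`, `x i (w) ≠ 0`. -/
theorem GChart.exists_LM [Fintype {i : k // x i w = 0}] [Fintype {i : k // x i w ≠ 0}]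
    (h : GChart T w x y M e0 U) :
    ∃ (M' : Matroid (E ⊕ {i : k // x i w ≠ 0})) (U1 : Set (P → ℝ)) (δ : ℝ)
      (L : ({i : k // x i w = 0} → ℝ) × (E ⊕ {i : k // x i w ≠ 0} → ℝ) → P → ℝ),
      LM T w (fun i : {i : k // x i w = 0} => x i.1)
        (Sum.elim (fun e b => y e b - y e w) fun (i : {i : k // x i w ≠ 0}) b =>
          Real.log (x i.1 b) - Real.log (x i.1 w)) M' (Sum.inl e0) U1 δ L := by
  classical
  have hwTU : w ∈ T ∩ U := ⟨h.hw, h.w_mem⟩
  obtain ⟨hx0, hv0, hvM⟩ := S1.mem_mdl h hwTU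
  have hx0' : ∀ i, 0 ≤ x i w := hx0
  have hv0' : y e0 w = 0 := hv0
  have hJ : ∀ j : {i : k // x i w ≠ 0}, 0 < x j.1 w := fun j =>
    lt_of_le_of_ne (hx0' _) (Ne.symm j.2)
  obtain ⟨M1, hE1, hl1, δ1, hδ1, hM1⟩ := exists_star h.ground h.loopless hvM
  have hM1' : ∀ η : E → ℝ, (∀ e, |η e| < δ1) →
      (BergM M ((fun e => y e w) + η) ↔ BergM M1 η) := hM1
  obtain ⟨M', hE', hl', hM'⟩ := exists_coloops (J := {i : k // x i w ≠ 0}) M1 hE1 hl1
  -- the image of the chart
  have hV : cm x y '' (T ∩ U) ∈ 𝓝[Mdl k M e0] (cm x y w) := by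
    rw [← h.homeo w hwTU]
    exact Filter.image_mem_map (S1.nhdsT h hwTU)
  obtain ⟨O, hO, hwO, hOV⟩ := mem_nhdsWithin.1 hV
  have hO' : S1.kap w x y ⁻¹' O ∈ 𝓝 (0 : ({i : k // x i w = 0} → ℝ) ×
      (E ⊕ {i : k // x i w ≠ 0} → ℝ)) := by
    refine (S1.kap_cont w x y).continuousAt (hO.mem_nhds ?_)
    rw [S1.kap_zero]
    exact hwO
  obtain ⟨δ2, hδ2, hball⟩ := Metric.mem_nhds_iff.1 hO'
  obtain ⟨δ, hδ, hδδ1, hδδ2⟩ : ∃ δ : ℝ, 0 < δ ∧ δ ≤ δ1 ∧ δ ≤ δ2 :=
    ⟨min δ1 δ2, lt_min hδ1 hδ2, min_le_left _ _, min_le_right _ _⟩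
  -- the box is mapped to the model
  have hkM : ∀ p ∈ Bx {i : k // x i w = 0} M' (Sum.inl e0) δ,
      S1.kap w x y p ∈ Mdl k M e0 := by
    rintro p ⟨hp1, hp2, hp3, hp4⟩
    refine ⟨fun i => ?_, ?_, ?_⟩
    · by_cases hi : x i w = 0
      · rw [S1.kap_pos hi]
        exact (hp1 _).1
      · rw [S1.kap_neg hi]
        exact mul_nonneg (hx0' i) (Real.exp_pos _).le
    · rw [S1.kap_snd, hv0', hp3, add_zero]
    · show BergM M ((fun e => y e w) + fun e => p.2 (Sum.inl e))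
      exact (hM1' _ fun e => lt_of_lt_of_le (hp2 _) hδδ1).2 ((hM' p.2).1 hp4)
  have hkV : ∀ p ∈ Bx {i : k // x i w = 0} M' (Sum.inl e0) δ,
      S1.kap w x y p ∈ cm x y '' (T ∩ U) := by
    intro p hp
    refine hOV ⟨?_, hkM p hp⟩
    apply hball
    rw [Metric.mem_ball, Prod.dist_eq, max_lt_iff, dist_pi_lt_iff hδ2, dist_pi_lt_iff hδ2]
    refine ⟨fun i => ?_, fun e => ?_⟩
    · rw [Real.dist_eq]
      show |p.1 i - 0| < δ2
      rw [sub_zero, abs_of_nonneg (hp.1 i).1]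
      exact lt_of_lt_of_le (hp.1 i).2 hδδ2
    · rw [Real.dist_eq]
      show |p.2 e - 0| < δ2
      rw [sub_zero]
      exact lt_of_lt_of_le (hp.2.1 e) hδδ2
  -- the inverse
  have hL1 : ∀ p ∈ Bx {i : k // x i w = 0} M' (Sum.inl e0) δ,
      S1.inv T x y U (S1.kap w x y p) ∈ T ∩ U := fun p hp =>
    Function.invFunOn_mem (by
      obtain ⟨b, hb, hb'⟩ := hkV p hp
      exact ⟨b, hb, hb'⟩)
  have hL2 : ∀ p ∈ Bx {i : k // x i w = 0} M' (Sum.inl e0) δ,
      cm x y (S1.inv T x y U (S1.kap w x y p)) = S1.kap w x y p := fun p hp =>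
    Function.invFunOn_eq (by
      obtain ⟨b, hb, hb'⟩ := hkV p hp
      exact ⟨b, hb, hb'⟩)
  have hL2x : ∀ p ∈ Bx {i : k // x i w = 0} M' (Sum.inl e0) δ, ∀ i,
      x i (S1.inv T x y U (S1.kap w x y p)) = (S1.kap w x y p).1 i := fun p hp i =>
    congrFun (congrArg Prod.fst (hL2 p hp)) i
  have hL2y : ∀ p ∈ Bx {i : k // x i w = 0} M' (Sum.inl e0) δ, ∀ e,
      y e (S1.inv T x y U (S1.kap w x y p)) = (S1.kap w x y p).2 e := fun p hp e =>
    congrFun (congrArg Prod.snd (hL2 p hp)) e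
  -- the open set
  obtain ⟨u, hu, huT⟩ := continuousOn_iff'.1 (S1.con h) _ (S1.isOpen_O1 w x y δ)
  have hmem : ∀ b, b ∈ T ∩ (u ∩ U) ↔ b ∈ T ∩ U ∧ cm x y b ∈ S1.O1 w x y δ := by
    intro b
    have h1 : b ∈ cm x y ⁻¹' S1.O1 w x y δ ∩ (T ∩ U) ↔ b ∈ u ∩ (T ∩ U) := by rw [huT]
    constructor
    · rintro ⟨hT, hu', hU⟩
      exact ⟨⟨hT, hU⟩, (h1.2 ⟨hu', hT, hU⟩).1⟩
    · rintro ⟨hTU, hO1⟩
      exact ⟨hTU.1, (h1.1 ⟨hO1, hTU⟩).1, hTU.2⟩
  have hJpos : ∀ b ∈ T ∩ (u ∩ U), ∀ j : {i : k // x i w ≠ 0}, 0 < x j.1 b := fun b hb j =>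
    (((hmem b).1 hb).2.2.1 j).1
  have hxc : ∀ i, ContinuousOn (x i) (T ∩ U) := fun i =>
    ((continuous_apply i).comp continuous_fst).comp_continuousOn (S1.con h)
  have hyc : ∀ e, ContinuousOn (y e) (T ∩ U) := fun e =>
    ((continuous_apply e).comp continuous_snd).comp_continuousOn (S1.con h)
  have hsub : T ∩ (u ∩ U) ⊆ T ∩ U := fun b hb => ⟨hb.1, hb.2.2⟩
  refine ⟨M', u ∩ U, δ, fun p => S1.inv T x y U (S1.kap w x y p), ?_⟩
  refine ⟨hE', hl', hu.inter h.isOpen, h.hw, ?_, hδ, fun i => i.2, ?_, ?_, ?_, ?_, ?_, ?_, ?_,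
    ?_, ?_, ?_⟩
  · -- w_mem
    have h1 : w ∈ T ∩ (u ∩ U) := by
      rw [hmem]
      refine ⟨hwTU, fun i => ?_, fun j => ⟨hJ j, ?_⟩, fun e => ?_⟩
      · show x i.1 w < δ
        rw [i.2]
        exact hδ
      · show |Real.log (x j.1 w) - Real.log (x j.1 w)| < δ
        rw [sub_self, abs_zero]
        exact hδ
      · show |y e w - y e w| < δ
        rw [sub_self, abs_zero]
        exact hδ
    exact h1.2
  · -- yw
    rintro (e | j)
    · exact sub_self _
    · exact sub_self _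
  · -- maps
    intro b hb
    obtain ⟨hTU, h1, h2, h3⟩ := (hmem b).1 hb
    obtain ⟨hb1, hb2, hb3⟩ := S1.mem_mdl h hTU
    refine ⟨fun i => ⟨hb1 i.1, h1 i⟩, ?_, ?_, ?_⟩
    · rintro (e | j)
      · exact h3 e
      · exact (h2 j).2
    · show y e0 b - y e0 w = 0
      have h4 : y e0 b = 0 := hb2
      rw [h4, hv0', sub_zero]
    · refine (hM' _).2 ((hM1' _ ?_).1 ?_)
      · intro e
        exact lt_of_lt_of_le (h3 e) hδδ1
      · have h4 : (fun e => y e w) + (fun e => y e b - y e w) = (cm x y b).2 := by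
          funext e
          show y e w + (y e b - y e w) = y e b
          ring
        show BergM M ((fun e => y e w) + fun e => y e b - y e w)
        rw [h4]
        exact hb3
  · -- Lmaps
    intro p hp
    rw [hmem]
    refine ⟨hL1 p hp, ?_⟩
    rw [hL2 p hp]
    refine ⟨fun i => ?_, fun j => ?_, fun e => ?_⟩
    · rw [S1.kap_pos i.2]
      exact (hp.1 _).2
    · rw [S1.kap_neg j.2]
      refine ⟨mul_pos (hJ j) (Real.exp_pos _), ?_⟩
      rw [Real.log_mul (hJ j).ne' (Real.exp_pos _).ne', Real.log_exp, add_sub_cancel_left]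
      exact hp.2.1 _
    · rw [S1.kap_snd, add_sub_cancel_left]
      exact hp.2.1 _
  · -- left
    intro b hb
    obtain ⟨hTU, h1, h2, h3⟩ := (hmem b).1 hb
    have h4 : S1.kap w x y (cm (fun i : {i : k // x i w = 0} => x i.1)
        (Sum.elim (fun e b => y e b - y e w) fun (i : {i : k // x i w ≠ 0}) b =>
          Real.log (x i.1 b) - Real.log (x i.1 w)) b) = cm x y b := by
      refine Prod.ext (funext fun i => ?_) (funext fun e => ?_)
      · by_cases hi : x i w = 0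
        · rw [S1.kap_pos hi]
          rfl
        · rw [S1.kap_neg hi]
          show x i w * Real.exp (Real.log (x i b) - Real.log (x i w)) = x i b
          have h5 : 0 < x i w := hJ ⟨i, hi⟩
          have h6 : 0 < x i b := (h2 ⟨i, hi⟩).1
          rw [Real.exp_sub, Real.exp_log h5, Real.exp_log h6]
          field_simp
      · rw [S1.kap_snd]
        show y e w + (y e b - y e w) = y e b
        ring
    show S1.inv T x y U (S1.kap w x y _) = b
    rw [h4]
    exact S1.inv_left h hTU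
  · -- right
    intro p hp
    refine Prod.ext (funext fun i => ?_) (funext fun e => ?_)
    · show x i.1 (S1.inv T x y U (S1.kap w x y p)) = p.1 i
      rw [hL2x p hp, S1.kap_pos i.2]
    · rcases e with e | j
      · show y e (S1.inv T x y U (S1.kap w x y p)) - y e w = p.2 (Sum.inl e)
        rw [hL2y p hp, S1.kap_snd, add_sub_cancel_left]
      · show Real.log (x j.1 (S1.inv T x y U (S1.kap w x y p))) - Real.log (x j.1 w) =
          p.2 (Sum.inr j)
        rw [hL2x p hp, S1.kap_neg j.2, Real.log_mul (hJ j).ne' (Real.exp_pos _).ne',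
          Real.log_exp, add_sub_cancel_left]
  · -- cont
    refine ContinuousOn.prodMk (continuousOn_pi.2 fun i => ?_) (continuousOn_pi.2 fun e => ?_)
    · exact (hxc i.1).mono hsub
    · rcases e with e | j
      · exact ((hyc e).mono hsub).sub continuousOn_const
      · exact (((hxc j.1).mono hsub).log fun b hb => (hJpos b hb j).ne').sub continuousOn_const
  · -- Lcont
    intro p hp
    obtain ⟨b, hb, hb'⟩ := hkV p hp
    have h1 : ContinuousWithinAt (S1.inv T x y U) (Mdl k M e0) (S1.kap w x y p) := by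
      rw [← hb']
      exact S1.inv_cont h hb
    exact h1.comp (S1.kap_cont w x y).continuousWithinAt hkM
  · -- afft
    intro b hb i hi
    exact h.affx b (hsub hb) i.1 hi
  · -- affy
    intro b hb e
    rcases e with e | j
    · obtain ⟨m, m', c, hm, hm', hc⟩ := h.affy b (hsub hb) e
      refine ⟨m, m', c - y e w, hm, hm', ?_⟩
      filter_upwards [hc] with b' hb'
      show y e b' - y e w = _
      rw [hb']
      ring
    · obtain ⟨m, m', c, hm, hm', hc⟩ := h.affx b (hsub hb) j.1 (hJpos b hb j).ne'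
      refine ⟨m, m', c - Real.log (x j.1 w), hm, hm', ?_⟩
      filter_upwards [hc] with b' hb'
      show Real.log (x j.1 b') - Real.log (x j.1 w) = _
      rw [hb']
      ring
  · -- aff
    intro b hb m hm
    obtain ⟨n, l, c, hn, hc⟩ := h.aff b (hsub hb) m hm
    refine ⟨fun i => n i.1, Sum.elim l fun j => n j.1,
      c + (∑ e, (l e : ℝ) * y e w) + ∑ j : {i : k // x i w ≠ 0}, (n j.1 : ℝ) *
        Real.log (x j.1 w), fun i hi => hn i.1 hi, ?_⟩
    filter_upwards [hc] with b' hb'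
    rw [hb', Fintype.sum_sum_type]
    simp only [Sum.elim_inl, Sum.elim_inr]
    have h1 : ∑ i, (n i : ℝ) * Real.log (x i b') =
        (∑ i : {i : k // x i w = 0}, (n i.1 : ℝ) * Real.log (x i.1 b')) +
        ∑ j : {i : k // x i w ≠ 0}, (n j.1 : ℝ) * Real.log (x j.1 b') := by
      rw [← Fintype.sum_subtype_add_sum_subtype (fun i : k => x i w = 0)]
      exact congrArg₂ (fun a b : ℝ => a + b) (S1.sum_inst _ _ _) (S1.sum_inst _ _ _)
    have h2 : ∑ e, (l e : ℝ) * (y e b' - y e w) =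
        ∑ e, (l e : ℝ) * y e b' - ∑ e, (l e : ℝ) * y e w := by
      rw [← Finset.sum_sub_distrib]
      exact Finset.sum_congr rfl fun e _ => by ring
    have h3 : ∑ j : {i : k // x i w ≠ 0}, (n j.1 : ℝ) *
        (Real.log (x j.1 b') - Real.log (x j.1 w)) =
        ∑ j : {i : k // x i w ≠ 0}, (n j.1 : ℝ) * Real.log (x j.1 b') -
        ∑ j : {i : k // x i w ≠ 0}, (n j.1 : ℝ) * Real.log (x j.1 w) := by
      rw [← Finset.sum_sub_distrib]
      exact Finset.sum_congr rfl fun e _ => by ring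
    rw [h1, h2, h3]
    ring

end Pool.Agent.TD.R
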