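import Pool.Agent.TD.R.Defs

/-! Block R: elementary consequences of a centred chart (module TD_R_S2). -/

open scoped Topology NNReal

namespace Pool.Agent.TD.R

variable {N I E : Type} [AddCommGroup N] {P : AddSubmonoid N} [Fintype I] [Fintype E]
  {T : Set (P → ℝ)} {w : P → ℝ} {t : I → (P → ℝ) → ℝ} {y : E → (P → ℝ) → ℝ} {M : Matroid E}
  {e0 : E} {U : Set (P → ℝ)} {δ : ℝ} {L : (I → ℝ) × (E → ℝ) → P → ℝ}

theorem S2.cm_w (h : LM T w t y M e0 U δ L) : cm t y w = (fun _ => 0, fun _ => 0) := by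
  unfold cm
  simp only [h.tw, h.yw]

theorem S2.L_zero (h : LM T w t y M e0 U δ L) : L (fun _ => 0, fun _ => 0) = w := by
  rw [← S2.cm_w h]
  exact h.left w ⟨h.hw, h.w_mem⟩

theorem S2.Bx_mono {δ δ' : ℝ} (h : δ' ≤ δ) : Bx I M e0 δ' ⊆ Bx I M e0 δ := by
  rintro p ⟨h1, h2, h3, h4⟩
  exact ⟨fun i => ⟨(h1 i).1, (h1 i).2.trans_le h⟩, fun e => (h2 e).trans_le h, h3, h4⟩

theorem S2.tendsto_L (h : LM T w t y M e0 U δ L) {b : P → ℝ} (hb : b ∈ T ∩ U) :
    Filter.Tendsto L (𝓝[Bx I M e0 δ] (cm t y b)) (𝓝[T] b) := by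
  have h1 : ContinuousWithinAt L (Bx I M e0 δ) (cm t y b) := h.Lcont _ (h.maps b hb)
  have h2 : Filter.Tendsto L (𝓝[Bx I M e0 δ] (cm t y b)) (𝓝 b) := by
    have h3 := h1.tendsto
    rwa [h.left b hb] at h3
  refine tendsto_nhdsWithin_iff.2 ⟨h2, ?_⟩
  filter_upwards [self_mem_nhdsWithin] with p hp
  exact (h.Lmaps p hp).1

/-- Restriction to smaller neighbourhoods. -/
theorem LM.shrink (h : LM T w t y M e0 U δ L) {V : Set (P → ℝ)} (hV : V ∈ 𝓝[T] w) {η : ℝ}
    (hη : 0 < η) : ∃ (U' : Set (P → ℝ)) (δ' : ℝ), U' ⊆ U ∧ δ' ≤ δ ∧ δ' ≤ η ∧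
      LM T w t y M e0 U' δ' L ∧ T ∩ U' ⊆ V := by
  have hw : w ∈ T ∩ U := ⟨h.hw, h.w_mem⟩
  have h1 : L ⁻¹' V ∈ 𝓝[Bx I M e0 δ] (cm t y w) := S2.tendsto_L h hw hV
  rw [Metric.mem_nhdsWithin_iff] at h1
  obtain ⟨ε, hε, hball⟩ := h1
  set δ' := min δ (min η ε) with hδ'
  have hδ'pos : 0 < δ' := lt_min h.δpos (lt_min hη hε)
  have hle : δ' ≤ δ := min_le_left _ _
  have hleη : δ' ≤ η := (min_le_right _ _).trans (min_le_left _ _)
  have hleε : δ' ≤ ε := (min_le_right _ _).trans (min_le_right _ _)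
  have hBall : ∀ p ∈ Bx I M e0 δ', p ∈ Metric.ball (cm t y w) ε ∩ Bx I M e0 δ := by
    intro p hp
    refine ⟨?_, S2.Bx_mono hle hp⟩
    rw [Metric.mem_ball, S2.cm_w h]
    refine lt_of_lt_of_le ?_ hleε
    rw [Prod.dist_eq, max_lt_iff]
    constructor
    · rw [dist_pi_lt_iff hδ'pos]
      intro i
      rw [Real.dist_eq, sub_zero, abs_of_nonneg (hp.1 i).1]
      exact (hp.1 i).2
    · rw [dist_pi_lt_iff hδ'pos]
      intro e
      rw [Real.dist_eq, sub_zero]
      exact hp.2.1 e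
  let O : Set ((I → ℝ) × (E → ℝ)) := {p | (∀ i, p.1 i < δ') ∧ ∀ e, |p.2 e| < δ'}
  have hO : IsOpen O := by
    have e1 : O = (⋂ i, {p : (I → ℝ) × (E → ℝ) | p.1 i < δ'}) ∩
        ⋂ e, {p : (I → ℝ) × (E → ℝ) | |p.2 e| < δ'} := by
      ext p
      simp [O]
    rw [e1]
    refine (isOpen_iInter_of_finite fun i => ?_).inter (isOpen_iInter_of_finite fun e => ?_)
    · exact isOpen_lt ((continuous_apply i).comp continuous_fst) continuous_const
    · exact isOpen_lt (((continuous_apply e).comp continuous_snd).abs) continuous_const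
  obtain ⟨u, hu, hue⟩ := continuousOn_iff'.1 h.cont O hO
  have hmemu : ∀ b ∈ T ∩ U, b ∈ u ↔ cm t y b ∈ O := by
    intro b hb
    constructor
    · intro hbu
      have h2 : b ∈ cm t y ⁻¹' O ∩ (T ∩ U) := by
        rw [hue]
        exact ⟨hbu, hb⟩
      exact h2.1
    · intro hbO
      have h2 : b ∈ u ∩ (T ∩ U) := by
        rw [← hue]
        exact ⟨hbO, hb⟩
      exact h2.1
  have hsub : T ∩ (u ∩ U) ⊆ T ∩ U := fun b hb => ⟨hb.1, hb.2.2⟩
  have hmaps : ∀ b ∈ T ∩ (u ∩ U), cm t y b ∈ Bx I M e0 δ' := by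
    intro b hb
    have hbU : b ∈ T ∩ U := hsub hb
    have h2 := h.maps b hbU
    have h3 : cm t y b ∈ O := (hmemu b hbU).1 hb.2.1
    exact ⟨fun i => ⟨(h2.1 i).1, h3.1 i⟩, h3.2, h2.2.2.1, h2.2.2.2⟩
  have hLmaps : ∀ p ∈ Bx I M e0 δ', L p ∈ T ∩ (u ∩ U) := by
    intro p hp
    have hpδ := S2.Bx_mono hle hp
    have h2 := h.Lmaps p hpδ
    refine ⟨h2.1, ?_, h2.2⟩
    rw [hmemu _ h2, h.right p hpδ]
    exact ⟨fun i => (hp.1 i).2, hp.2.1⟩
  refine ⟨u ∩ U, δ', Set.inter_subset_right, hle, hleη, ?_, ?_⟩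
  · refine
      { ground := h.ground
        loopless := h.loopless
        isOpen := hu.inter h.isOpen
        hw := h.hw
        w_mem := ⟨?_, h.w_mem⟩
        δpos := hδ'pos
        tw := h.tw
        yw := h.yw
        maps := hmaps
        Lmaps := hLmaps
        left := fun b hb => h.left b (hsub hb)
        right := fun p hp => h.right p (S2.Bx_mono hle hp)
        cont := h.cont.mono hsub
        Lcont := h.Lcont.mono (S2.Bx_mono hle)
        afft := fun b hb => h.afft b (hsub hb)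
        affy := fun b hb => h.affy b (hsub hb)
        aff := fun b hb => h.aff b (hsub hb) }
    rw [hmemu w hw, S2.cm_w h]
    exact ⟨fun _ => hδ'pos, fun _ => by
      show |(0 : ℝ)| < δ'
      rw [abs_zero]
      exact hδ'pos⟩
  · intro b hb
    have h2 := hball (hBall _ (hmaps b hb))
    have h3 : L (cm t y b) ∈ V := h2
    rwa [h.left b (hsub hb)] at h3

/-- The points `L p`, `p → 0`, tend to `w`. -/
theorem LM.L_zero (h : LM T w t y M e0 U δ L) : L (fun _ => 0, fun _ => 0) = w :=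
  S2.L_zero h

/-- Convergence to `w` in coordinates. -/
theorem LM.tendsto_iff (h : LM T w t y M e0 U δ L) {ι : Type} {F : Filter ι} {u : ι → P → ℝ}
    (hu : ∀ᶠ j in F, u j ∈ T ∩ U) : Filter.Tendsto u F (𝓝 w) ↔
      (∀ i, Filter.Tendsto (fun j => t i (u j)) F (𝓝 0)) ∧
        ∀ e, Filter.Tendsto (fun j => y e (u j)) F (𝓝 0) := by
  have hw : w ∈ T ∩ U := ⟨h.hw, h.w_mem⟩
  constructor
  · intro hl
    have h1 : Filter.Tendsto u F (𝓝[T ∩ U] w) := tendsto_nhdsWithin_iff.2 ⟨hl, hu⟩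
    have h2 : Filter.Tendsto (fun j => cm t y (u j)) F (𝓝 (cm t y w)) :=
      (h.cont w hw).tendsto.comp h1
    have h3 := (continuous_fst.tendsto _).comp h2
    have h4 := (continuous_snd.tendsto _).comp h2
    rw [tendsto_pi_nhds] at h3 h4
    constructor
    · intro i
      have h5 := h3 i
      rw [show (cm t y w).1 i = 0 from h.tw i] at h5
      exact h5
    · intro e
      have h5 := h4 e
      rw [show (cm t y w).2 e = 0 from h.yw e] at h5
      exact h5
  · rintro ⟨h1, h2⟩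
    have h3 : Filter.Tendsto (fun j => cm t y (u j)) F (𝓝 (cm t y w)) := by
      rw [S2.cm_w h, nhds_prod_eq]
      exact (tendsto_pi_nhds.2 h1).prodMk (tendsto_pi_nhds.2 h2)
    have h4 : Filter.Tendsto (fun j => cm t y (u j)) F (𝓝[Bx I M e0 δ] (cm t y w)) := by
      refine tendsto_nhdsWithin_iff.2 ⟨h3, ?_⟩
      filter_upwards [hu] with j hj
      exact h.maps _ hj
    have h5 : Filter.Tendsto (fun j => L (cm t y (u j))) F (𝓝[T] w) :=
      (S2.tendsto_L h hw).comp h4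
    refine (tendsto_nhds_of_tendsto_nhdsWithin h5).congr' ?_
    filter_upwards [hu] with j hj
    exact h.left _ hj

/-- Functions of the form `AffX` near a point, in the coordinates of the model. -/
theorem LM.affX_model (h : LM T w t y M e0 U δ L) {b : P → ℝ} (hb : b ∈ T ∩ U)
    (ht : ∀ i, t i b ≠ 0) {g : (P → ℝ) → ℝ} (hg : AffX T t y b g) :
    ∃ (n : I → ℤ) (l : E → ℤ) (c : ℝ), ∀ᶠ p in 𝓝[Om I M e0 δ] (cm t y b),
      g (L p) = Aff (fun i => (n i : ℝ)) (fun e => (l e : ℝ)) c p := by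
  have _ := ht
  obtain ⟨n, l, c, _, hg⟩ := hg
  refine ⟨n, l, c, ?_⟩
  have hsub : Om I M e0 δ ⊆ Bx I M e0 δ := fun p hp => hp.1
  have h1 : Filter.Tendsto L (𝓝[Om I M e0 δ] (cm t y b)) (𝓝[T] b) :=
    (S2.tendsto_L h hb).mono_left (nhdsWithin_mono _ hsub)
  filter_upwards [h1.eventually hg, self_mem_nhdsWithin] with p hp hpO
  have h2 := h.right p (hsub hpO)
  have h3 : ∀ i, t i (L p) = p.1 i := fun i => congrFun (congrArg Prod.fst h2) i
  have h4 : ∀ e, y e (L p) = p.2 e := fun e => congrFun (congrArg Prod.snd h2) e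
  rw [hp]
  simp only [h3, h4]
  rfl

/-- The characters of a homomorphism: the set where finitely many generators do not vanish. -/
theorem stratum_open (hT : IsTr T) {G : Finset P} (hG : AddSubmonoid.closure (G : Set P) = ⊤)
    {b : P → ℝ} (hm : ∀ m, b m ≠ 0) : ∀ᶠ b' in 𝓝[T] b, ∀ m, b' m ≠ 0 := by
  have h1 : ∀ᶠ b' in 𝓝 b, ∀ m ∈ G, b' m ≠ 0 := by
    rw [Filter.eventually_all_finset]
    intro m _
    exact (continuous_apply m).continuousAt.eventually_ne (hm m)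
  filter_upwards [mem_nhdsWithin_of_mem_nhds h1, self_mem_nhdsWithin] with b' hb' hbT
  obtain ⟨h0, hmul, -⟩ := hT b' hbT
  intro m
  have hmem : m ∈ AddSubmonoid.closure (G : Set P) := by
    rw [hG]
    trivial
  induction hmem using AddSubmonoid.closure_induction with
  | mem x hx => exact hb' x hx
  | zero =>
    rw [h0]
    exact one_ne_zero
  | add x y _ _ hx hy =>
    rw [hmul]
    exact mul_ne_zero hx hy

end Pool.Agent.TD.R
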