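import Pool.Agent.TD.R.A2
import Pool.Agent.TD.R.S2

/-! Block R: the open stratum is the set where the coordinates `t` do not vanish
(module TD_R_S3). -/

open scoped Topology NNReal

namespace Pool.Agent.TD.R

variable {N I E : Type} [AddCommGroup N] {P : AddSubmonoid N} [Fintype I] [Fintype E]
  {T : Set (P → ℝ)} {w : P → ℝ} {t : I → (P → ℝ) → ℝ} {y : E → (P → ℝ) → ℝ} {M : Matroid E}
  {e0 : E} {U : Set (P → ℝ)} {δ : ℝ} {L : (I → ℝ) × (E → ℝ) → P → ℝ}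

theorem LM.cm_mem_Om (h : LM T w t y M e0 U δ L) {b : P → ℝ} (hb : b ∈ T ∩ U)
    (ht : ∀ i, t i b ≠ 0) : cm t y b ∈ Om I M e0 δ :=
  ⟨h.maps b hb, fun i => lt_of_le_of_ne ((h.maps b hb).1 i).1 (Ne.symm (ht i))⟩

theorem LM.tendsto_cm (h : LM T w t y M e0 U δ L) {b : P → ℝ} (hb : b ∈ T ∩ U)
    (ht : ∀ i, t i b ≠ 0) :
    Filter.Tendsto (cm t y) (𝓝[T] b) (𝓝[Om I M e0 δ] (cm t y b)) := by
  have e1 : 𝓝[T ∩ U] b = 𝓝[T] b :=
    nhdsWithin_inter_of_mem' (mem_nhdsWithin_of_mem_nhds (h.isOpen.mem_nhds hb.2))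
  have hc : Filter.Tendsto (cm t y) (𝓝[T] b) (𝓝 (cm t y b)) := by
    have := h.cont b hb
    rw [ContinuousWithinAt, e1] at this
    exact this
  refine tendsto_nhdsWithin_iff.2 ⟨hc, ?_⟩
  have hU : ∀ᶠ b' in 𝓝[T] b, b' ∈ T ∩ U := by
    rw [← e1]
    exact self_mem_nhdsWithin
  have hti : ∀ᶠ b' in 𝓝[T] b, ∀ i, t i b' ≠ 0 := by
    rw [Filter.eventually_all]
    intro i
    have h1 : Filter.Tendsto (fun b' => (cm t y b').1 i) (𝓝[T] b) (𝓝 ((cm t y b).1 i)) :=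
      ((continuous_apply i).comp continuous_fst).continuousAt.tendsto.comp hc
    exact h1.eventually_ne (ht i)
  filter_upwards [hU, hti] with b' h1 h2
  exact h.cm_mem_Om h1 h2

theorem LM.stratum_of_t (h : LM T w t y M e0 U δ L) (hT : IsTr T) (hd : Dns T) {G : Finset P}
    (hG : AddSubmonoid.closure (G : Set P) = ⊤) {b : P → ℝ} (hb : b ∈ T ∩ U)
    (ht : ∀ i, t i b ≠ 0) (m : P) : b m ≠ 0 := by
  intro hbm
  have hcmb : cm t y b ∈ Om I M e0 δ := h.cm_mem_Om hb ht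
  have hev : ∀ᶠ b1 in 𝓝[T] b, ∃ γ, IsPath M e0 δ γ (cm t y b) (cm t y b1) :=
    (h.tendsto_cm hb ht).eventually (exists_path_loc h.ground h.loopless hcmb)
  have hU : ∀ᶠ b' in 𝓝[T] b, b' ∈ U :=
    mem_nhdsWithin_of_mem_nhds (h.isOpen.mem_nhds hb.2)
  obtain ⟨V, hV, hVT⟩ := mem_nhdsWithin_iff_exists_mem_nhds_inter.1 (hev.and hU)
  obtain ⟨b1, ⟨hb1T, hb1V⟩, hb1⟩ := hd b hb.1 V hV
  obtain ⟨⟨γ, hγ⟩, hb1U⟩ := hVT ⟨hb1V, hb1T⟩
  have hf0 : L (γ 0) = b := by rw [hγ.zero, h.left b hb]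
  have hf1 : L (γ 1) = b1 := by rw [hγ.one, h.left b1 ⟨hb1T, hb1U⟩]
  have hfm : ∀ s ∈ Set.Icc (0 : ℝ) 1, L (γ s) ∈ T ∩ U := fun s hs =>
    h.Lmaps _ (hγ.mem s hs).1
  have hfc : ContinuousOn (fun s => L (γ s)) (Set.Icc 0 1) :=
    h.Lcont.comp hγ.cont fun s hs => (hγ.mem s hs).1
  have hft : ∀ s ∈ Set.Icc (0 : ℝ) 1, Filter.Tendsto (fun s => L (γ s)) (𝓝[Set.Icc 0 1] s)
      (𝓝[T] (L (γ s))) := fun s hs =>
    tendsto_nhdsWithin_iff.2 ⟨hfc s hs, by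
      filter_upwards [self_mem_nhdsWithin] with s' hs' using (hfm s' hs').1⟩
  -- the bad set
  let D : Set ℝ := {s | s ∈ Set.Icc (0 : ℝ) 1 ∧ ∃ m, L (γ s) m = 0}
  have hDc : IsClosed D := by
    rw [← isOpen_compl_iff, isOpen_iff_mem_nhds]
    intro s hs
    by_cases hsI : s ∈ Set.Icc (0 : ℝ) 1
    · have hall : ∀ m, L (γ s) m ≠ 0 := fun m hm => hs ⟨hsI, m, hm⟩
      have h1 := (hft s hsI).eventually (stratum_open hT hG hall)
      obtain ⟨V', hV', hV'T⟩ := mem_nhdsWithin_iff_exists_mem_nhds_inter.1 h1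
      filter_upwards [hV'] with s' hs' hs'D
      obtain ⟨hs'I, m', hm'⟩ := hs'D
      exact hV'T ⟨hs', hs'I⟩ m' hm'
    · filter_upwards [isClosed_Icc.isOpen_compl.mem_nhds hsI] with s' hs' hs'D
      exact hs' hs'D.1
  have hDK : IsCompact D := isCompact_Icc.of_isClosed_subset hDc fun s hs => hs.1
  have h0D : (0 : ℝ) ∈ D := ⟨⟨le_refl _, zero_le_one⟩, m, by rw [hf0]; exact hbm⟩
  obtain ⟨hsI, m', hm'⟩ : sSup D ∈ D := hDK.sSup_mem ⟨0, h0D⟩
  set r : ℝ := sSup D with hr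
  have hlub : ∀ s ∈ D, s ≤ r := fun s hs => le_csSup hDK.bddAbove hs
  have hr1 : r < 1 := by
    rcases lt_or_eq_of_le hsI.2 with h1 | h1
    · exact h1
    · exfalso
      rw [h1, hf1] at hm'
      exact hb1 m' hm'
  have hpos : ∀ s ∈ Set.Ioc r 1, ∀ m, 0 < L (γ s) m := by
    intro s hs m
    have hsI' : s ∈ Set.Icc (0 : ℝ) 1 := ⟨hsI.1.trans hs.1.le, hs.2⟩
    refine lt_of_le_of_ne ((hT _ (hfm s hsI').1).2.2 m) fun h0 => ?_
    exact absurd (hlub s ⟨hsI', m, h0.symm⟩) (not_le.2 hs.1)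
  have hsub : Set.Ioc r 1 ⊆ Set.Icc (0 : ℝ) 1 := fun s hs => ⟨hsI.1.trans hs.1.le, hs.2⟩
  obtain ⟨α, β, hαβ⟩ := affine_of_locally (J := Set.Ioc r 1) Set.ordConnected_Ioc
    (h := fun s => Real.log (L (γ s) m')) (by
      intro s hs
      have hsI' : s ∈ Set.Icc (0 : ℝ) 1 := hsub hs
      have hcm : cm t y (L (γ s)) = γ s := h.right _ (hγ.mem s hsI').1
      have hti : ∀ i, t i (L (γ s)) ≠ 0 := by
        intro i
        have h1 := (hγ.mem s hsI').2 i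
        rw [← hcm] at h1
        exact h1.ne'
      obtain ⟨n, l, c, hn⟩ := h.affX_model (hfm s hsI') hti
        (h.aff _ (hfm s hsI') m' (hpos s hs m').ne')
      rw [hcm] at hn
      have hγt : Filter.Tendsto γ (𝓝[Set.Ioc r 1] s) (𝓝[Om I M e0 δ] (γ s)) :=
        tendsto_nhdsWithin_iff.2 ⟨(hγ.cont s hsI').mono_left (nhdsWithin_mono _ hsub), by
          filter_upwards [self_mem_nhdsWithin] with s' hs' using hγ.mem s' (hsub hs')⟩
      refine ⟨Aff (fun i => (n i : ℝ)) (fun e => (l e : ℝ)) c (cm t y b1) -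
        Aff (fun i => (n i : ℝ)) (fun e => (l e : ℝ)) c (cm t y b),
        Aff (fun i => (n i : ℝ)) (fun e => (l e : ℝ)) c (cm t y b), ?_⟩
      filter_upwards [hγt.eventually hn, self_mem_nhdsWithin] with s' h1 h2
      rw [h1, hγ.aff _ _ _ s' (hsub h2)]
      ring)
  have hexp : ∀ s ∈ Set.Ioc r 1, L (γ s) m' = Real.exp (α * s + β) := by
    intro s hs
    rw [← hαβ s hs, Real.exp_log (hpos s hs m')]
  have hnb : (𝓝[Set.Ioc r 1] r).NeBot := by
    rw [← mem_closure_iff_nhdsWithin_neBot, closure_Ioc hr1.ne]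
    exact ⟨le_refl _, hr1.le⟩
  have l1 : Filter.Tendsto (fun s => L (γ s) m') (𝓝[Set.Ioc r 1] r) (𝓝 (L (γ r) m')) := by
    have h1 : Filter.Tendsto (fun s => L (γ s)) (𝓝[Set.Ioc r 1] r) (𝓝 (L (γ r))) :=
      (hfc r hsI).mono_left (nhdsWithin_mono _ hsub)
    exact (continuous_apply m').continuousAt.tendsto.comp h1
  have l2 : Filter.Tendsto (fun s => L (γ s) m') (𝓝[Set.Ioc r 1] r)
      (𝓝 (Real.exp (α * r + β))) := by
    have h1 : Filter.Tendsto (fun s : ℝ => Real.exp (α * s + β)) (𝓝[Set.Ioc r 1] r)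
        (𝓝 (Real.exp (α * r + β))) :=
      (Continuous.tendsto (by fun_prop) r).mono_left nhdsWithin_le_nhds
    refine h1.congr' ?_
    filter_upwards [self_mem_nhdsWithin] with s hs using (hexp s hs).symm
  have := tendsto_nhds_unique l1 l2
  rw [hm'] at this
  exact (Real.exp_pos _).ne this

/-- Near a point with all characters non-zero all characters are given by affine functions of
the non-vanishing coordinates, in one neighbourhood. -/
theorem LM.uniform (h : LM T w t y M e0 U δ L) (hT : IsTr T) {G : Finset P}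
    (hG : AddSubmonoid.closure (G : Set P) = ⊤) {b : P → ℝ} (hb : b ∈ T ∩ U)
    (hm : ∀ m, b m ≠ 0) : ∃ W ∈ 𝓝[T] b, ∀ m : P, ∃ (n : I → ℝ) (l : E → ℝ) (c : ℝ),
      (∀ i, t i b = 0 → n i = 0) ∧ ∀ b' ∈ W, Real.log (b' m) =
        ∑ i, n i * Real.log (t i b') + ∑ e, l e * y e b' + c := by
  have hgen : ∀ m : P, ∃ (n : I → ℝ) (l : E → ℝ) (c : ℝ),
      (∀ i, t i b = 0 → n i = 0) ∧ ∀ᶠ b' in 𝓝[T] b, Real.log (b' m) =
        ∑ i, n i * Real.log (t i b') + ∑ e, l e * y e b' + c := by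
    intro m
    obtain ⟨n, l, c, h1, h2⟩ := h.aff b hb m (hm m)
    exact ⟨fun i => (n i : ℝ), fun e => (l e : ℝ), c, fun i hi => by simp [h1 i hi], h2⟩
  choose n l c h1 h2 using hgen
  refine ⟨{b' | b' ∈ T ∧ (∀ m, b' m ≠ 0) ∧ ∀ g ∈ G, Real.log (b' g) =
        ∑ i, n g i * Real.log (t i b') + ∑ e, l g e * y e b' + c g}, ?_, ?_⟩
  · have h3 : ∀ᶠ b' in 𝓝[T] b, ∀ g ∈ G, Real.log (b' g) =
        ∑ i, n g i * Real.log (t i b') + ∑ e, l g e * y e b' + c g :=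
      (Filter.eventually_all_finset G).2 fun g _ => h2 g
    have h4 : ∀ᶠ b' in 𝓝[T] b, b' ∈ T := self_mem_nhdsWithin
    exact h4.and ((stratum_open hT hG hm).and h3)
  · intro m
    have hmem : m ∈ AddSubmonoid.closure (G : Set P) := by rw [hG]; trivial
    induction hmem using AddSubmonoid.closure_induction with
    | mem g hg => exact ⟨n g, l g, c g, h1 g, fun b' hb' => hb'.2.2 g hg⟩
    | zero =>
      refine ⟨fun _ => 0, fun _ => 0, 0, fun _ _ => rfl, fun b' hb' => ?_⟩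
      rw [(hT b' hb'.1).1]
      simp
    | add m m' _ _ ih ih' =>
      obtain ⟨n1, l1, c1, a1, a2⟩ := ih
      obtain ⟨n2, l2, c2, d1, d2⟩ := ih'
      refine ⟨fun i => n1 i + n2 i, fun e => l1 e + l2 e, c1 + c2,
        fun i hi => by simp [a1 i hi, d1 i hi], fun b' hb' => ?_⟩
      rw [(hT b' hb'.1).2.1, Real.log_mul (hb'.2.1 _) (hb'.2.1 _), a2 b' hb', d2 b' hb']
      simp only [add_mul, Finset.sum_add_distrib]
      ring

theorem LM.t_of_stratum (h : LM T w t y M e0 U δ L) (hT : IsTr T) {G : Finset P}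
    (hG : AddSubmonoid.closure (G : Set P) = ⊤) {b : P → ℝ} (hb : b ∈ T ∩ U)
    (hm : ∀ m, b m ≠ 0) (i : I) : t i b ≠ 0 := by
  classical
  intro hi
  obtain ⟨W, hW, hWm⟩ := h.uniform hT hG hb hm
  let p : ℝ → (I → ℝ) × (E → ℝ) := fun s => (Function.update (cm t y b).1 i s, (cm t y b).2)
  have hpc : Continuous p := by
    refine Continuous.prodMk ?_ continuous_const
    exact (continuous_const (y := (cm t y b).1)).update i continuous_id
  have hp0 : p 0 = cm t y b := by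
    have : Function.update (cm t y b).1 i 0 = (cm t y b).1 := by
      have h0 : (0 : ℝ) = (cm t y b).1 i := hi.symm
      rw [h0, Function.update_eq_self]
    simp only [p, this]
  have hpB : ∀ s ∈ Set.Ico (0 : ℝ) δ, p s ∈ Bx I M e0 δ := by
    intro s hs
    have hbx := h.maps b hb
    refine ⟨fun i' => ?_, hbx.2⟩
    by_cases hii : i' = i
    · subst hii
      simp only [p, Function.update_self]
      exact hs
    · simp only [p, Function.update_of_ne hii]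
      exact hbx.1 i'
  have hLp : ContinuousOn (fun s => L (p s)) (Set.Ico 0 δ) :=
    h.Lcont.comp hpc.continuousOn hpB
  have hLt : ∀ s ∈ Set.Ico (0 : ℝ) δ, Filter.Tendsto (fun s => L (p s)) (𝓝[Set.Ico 0 δ] s)
      (𝓝[T] (L (p s))) := fun s hs =>
    tendsto_nhdsWithin_iff.2 ⟨hLp s hs, by
      filter_upwards [self_mem_nhdsWithin] with s' hs' using (h.Lmaps _ (hpB s' hs')).1⟩
  have h0 := hLt 0 ⟨le_refl _, h.δpos⟩
  rw [hp0, h.left b hb] at h0
  obtain ⟨ε, hε, hεW⟩ := Metric.mem_nhdsWithin_iff.1 (h0 hW)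
  have hWs : ∀ s ∈ Set.Ioo (0 : ℝ) (min ε δ), L (p s) ∈ W := by
    intro s hs
    refine hεW ⟨?_, hs.1.le, hs.2.trans_le (min_le_right _ _)⟩
    rw [Metric.mem_ball, Real.dist_eq, sub_zero, abs_of_pos hs.1]
    exact hs.2.trans_le (min_le_left _ _)
  have hIoo : Set.Ioo (0 : ℝ) (min ε δ) ⊆ Set.Ico 0 δ := fun s hs =>
    ⟨hs.1.le, hs.2.trans_le (min_le_right _ _)⟩
  have hcmp : ∀ s ∈ Set.Ioo (0 : ℝ) (min ε δ), cm t y (L (p s)) = p s := fun s hs =>
    h.right _ (hpB s (hIoo hs))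
  have htj : ∀ s ∈ Set.Ioo (0 : ℝ) (min ε δ), t i (L (p s)) = s := by
    intro s hs
    have h1 : (cm t y (L (p s))).1 i = (p s).1 i := by rw [hcmp s hs]
    simpa [cm, p] using h1
  have hti : ∀ s ∈ Set.Ioo (0 : ℝ) (min ε δ), ∀ i', i' ≠ i → t i' (L (p s)) = t i' b := by
    intro s hs i' hi'
    have h1 : (cm t y (L (p s))).1 i' = (p s).1 i' := by rw [hcmp s hs]
    simpa [cm, p, Function.update_of_ne hi'] using h1
  have hye : ∀ s ∈ Set.Ioo (0 : ℝ) (min ε δ), ∀ e, y e (L (p s)) = y e b := by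
    intro s hs e
    have h1 : (cm t y (L (p s))).2 e = (p s).2 e := by rw [hcmp s hs]
    simpa [cm, p] using h1
  -- the characters are constant along the ray
  have hconst : ∀ m : P, ∃ C : ℝ, ∀ s ∈ Set.Ioo (0 : ℝ) (min ε δ), Real.log (L (p s) m) = C := by
    intro m
    obtain ⟨n, l, c, h1, h2⟩ := hWm m
    refine ⟨∑ i', n i' * Real.log (t i' b) + ∑ e, l e * y e b + c, fun s hs => ?_⟩
    rw [h2 _ (hWs s hs)]
    congr 2
    · refine Finset.sum_congr rfl fun i' _ => ?_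
      by_cases hii : i' = i
      · subst hii
        rw [h1 i' hi, zero_mul, zero_mul]
      · rw [hti s hs i' hii]
    · exact Finset.sum_congr rfl fun e _ => by rw [hye s hs e]
  have hmin : 0 < min ε δ := lt_min hε h.δpos
  have hs1 : min ε δ / 2 ∈ Set.Ioo (0 : ℝ) (min ε δ) := ⟨half_pos hmin, half_lt_self hmin⟩
  set s1 := min ε δ / 2 with hs1def
  obtain ⟨m, m', c, _, _, hc⟩ := h.afft _ (h.Lmaps _ (hpB s1 (hIoo hs1))) i
    (by rw [htj s1 hs1]; exact hs1.1.ne')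
  obtain ⟨C, hC⟩ := hconst m
  obtain ⟨C', hC'⟩ := hconst m'
  have hnh : 𝓝[Set.Ico 0 δ] s1 = 𝓝 s1 :=
    nhdsWithin_eq_nhds.2 (Filter.mem_of_superset (isOpen_Ioo.mem_nhds hs1) hIoo)
  have hev := (hLt s1 (hIoo hs1)).eventually hc
  rw [hnh] at hev
  have hev2 : ∀ᶠ s in 𝓝 s1, Real.log s = C - C' + c := by
    filter_upwards [hev, isOpen_Ioo.mem_nhds hs1] with s h1 h2
    rw [htj s h2, hC s h2, hC' s h2] at h1
    exact h1
  have hev3 : ∀ᶠ s in 𝓝[≠] s1, Real.log s = C - C' + c ∧ s ∈ Set.Ioo (0 : ℝ) (min ε δ) ∧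
      s ∈ ({s1}ᶜ : Set ℝ) := by
    have h1 : ∀ᶠ s in 𝓝[≠] s1, Real.log s = C - C' + c := hev2.filter_mono nhdsWithin_le_nhds
    have h2 : ∀ᶠ s in 𝓝[≠] s1, s ∈ Set.Ioo (0 : ℝ) (min ε δ) :=
      mem_nhdsWithin_of_mem_nhds (isOpen_Ioo.mem_nhds hs1)
    have h3 : ∀ᶠ s in 𝓝[≠] s1, s ∈ ({s1}ᶜ : Set ℝ) := self_mem_nhdsWithin
    exact h1.and (h2.and h3)
  obtain ⟨s2, h4, h5, h6⟩ := hev3.exists
  apply h6
  have h7 : Real.log s1 = C - C' + c := hev2.self_of_nhds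
  exact Real.log_injOn_pos (Set.mem_Ioi.2 h5.1) (Set.mem_Ioi.2 hs1.1) (h4.trans h7.symm)

end Pool.Agent.TD.R
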