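import Pool.Agent.TD.R.S3

/-! Block R: the characters in the coordinates of the chart (module TD_R_S4). -/

open scoped Topology NNReal

namespace Pool.Agent.TD.R

variable {N I E : Type} [AddCommGroup N] {P : AddSubmonoid N} [Fintype I] [Fintype E]
  {T : Set (P → ℝ)} {w : P → ℝ} {t : I → (P → ℝ) → ℝ} {y : E → (P → ℝ) → ℝ} {M : Matroid E}
  {e0 : E} {U : Set (P → ℝ)} {δ : ℝ} {L : (I → ℝ) × (E → ℝ) → P → ℝ}

theorem LM.s4_t (h : LM T w t y M e0 U δ L) {p : (I → ℝ) × (E → ℝ)} (hp : p ∈ Bx I M e0 δ)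
    (i : I) : t i (L p) = p.1 i :=
  congrFun (congrArg Prod.fst (h.right p hp)) i

theorem LM.s4_y (h : LM T w t y M e0 U δ L) {p : (I → ℝ) × (E → ℝ)} (hp : p ∈ Bx I M e0 δ)
    (e : E) : y e (L p) = p.2 e :=
  congrFun (congrArg Prod.snd (h.right p hp)) e

theorem LM.s4_om (h : LM T w t y M e0 U δ L) {b : P → ℝ} (hb : b ∈ T ∩ U)
    (ht : ∀ i, t i b ≠ 0) : cm t y b ∈ Om I M e0 δ :=
  ⟨h.maps b hb, fun i => lt_of_le_of_ne ((h.maps b hb).1 i).1 (Ne.symm (ht i))⟩

theorem LM.s4_tend (h : LM T w t y M e0 U δ L) {p : (I → ℝ) × (E → ℝ)} (hp : p ∈ Om I M e0 δ) :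
    Filter.Tendsto L (𝓝[Om I M e0 δ] p) (𝓝[T] (L p)) := by
  have hsub : Om I M e0 δ ⊆ Bx I M e0 δ := fun q hq => hq.1
  refine tendsto_nhdsWithin_of_tendsto_nhds_of_eventually_within _
    ((h.Lcont p hp.1).mono hsub) ?_
  filter_upwards [self_mem_nhdsWithin] with q hq
  exact (h.Lmaps q hq.1).1

theorem s4_exp (n : I → ℤ) (l : E → ℤ) (c : ℝ) {p : (I → ℝ) × (E → ℝ)}
    (hp : ∀ i, 0 < p.1 i) :
    Real.exp (Aff (fun i => (n i : ℝ)) (fun e => (l e : ℝ)) c p) =
      Real.exp c * (∏ i, p.1 i ^ n i) * Real.exp (∑ e, (l e : ℝ) * p.2 e) := by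
  unfold Aff
  rw [Real.exp_add, Real.exp_add, Real.exp_sum]
  have e1 : ∏ i, Real.exp ((n i : ℝ) * Real.log (p.1 i)) = ∏ i, p.1 i ^ n i := by
    refine Finset.prod_congr rfl fun i _ => ?_
    rw [mul_comm, ← Real.rpow_def_of_pos (hp i), Real.rpow_intCast]
  rw [e1]
  ring

theorem LM.s4_glob (h : LM T w t y M e0 U δ L) (hT : IsTr T) (hd : Dns T) {G : Finset P}
    (hG : AddSubmonoid.closure (G : Set P) = ⊤) (m : P) :
    ∃ (n : I → ℤ) (l : E → ℤ) (c : ℝ), ∀ p ∈ Om I M e0 δ,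
      Real.log (L p m) = Aff (fun i => (n i : ℝ)) (fun e => (l e : ℝ)) c p := by
  have hloc : ∀ p ∈ Om I M e0 δ, ∃ (n : I → ℤ) (l : E → ℤ) (c : ℝ),
      ∀ᶠ p' in 𝓝[Om I M e0 δ] p,
        Real.log (L p' m) = Aff (fun i => (n i : ℝ)) (fun e => (l e : ℝ)) c p' := by
    intro p hp
    have hb := h.Lmaps p hp.1
    have ht : ∀ i, t i (L p) ≠ 0 := fun i => by
      rw [h.s4_t hp.1]; exact (hp.2 i).ne'
    have hm := h.stratum_of_t hT hd hG hb ht m
    obtain ⟨n, l, c, hh⟩ := h.affX_model hb ht (h.aff (L p) hb m hm)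
    rw [h.right p hp.1] at hh
    exact ⟨n, l, c, hh⟩
  have hp0 := base_mem (I := I) (M := M) (e0 := e0) h.loopless h.δpos
  obtain ⟨n, l, c, hh⟩ := hloc _ hp0
  refine ⟨n, l, c, ?_⟩
  refine glob (g := fun p => Real.log (L p m)) (fun p hp => ?_) hp0 rfl hh
  obtain ⟨n, l, c, hh⟩ := hloc p hp
  exact ⟨_, _, _, hh⟩

theorem LM.s4_open (h : LM T w t y M e0 U δ L) (hT : IsTr T) (hd : Dns T) {G : Finset P}
    (hG : AddSubmonoid.closure (G : Set P) = ⊤) {m : P} {n : I → ℤ} {l : E → ℤ} {c : ℝ}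
    (hh : ∀ p ∈ Om I M e0 δ,
      Real.log (L p m) = Aff (fun i => (n i : ℝ)) (fun e => (l e : ℝ)) c p)
    {b : P → ℝ} (hb : b ∈ T ∩ U) (ht : ∀ i, t i b ≠ 0) :
    b m = Real.exp c * (∏ i, t i b ^ n i) * Real.exp (∑ e, (l e : ℝ) * y e b) := by
  have hom := h.s4_om hb ht
  have hm := h.stratum_of_t hT hd hG hb ht m
  have hpos : 0 < b m := lt_of_le_of_ne ((hT b hb.1).2.2 m) (Ne.symm hm)
  have h1 := hh _ hom
  rw [h.left b hb] at h1
  have h2 := s4_exp n l c (p := cm t y b) hom.2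
  rw [← h1, Real.exp_log hpos] at h2
  exact h2

theorem LM.s4_nonneg (h : LM T w t y M e0 U δ L) (hT : IsTr T) (hd : Dns T) {G : Finset P}
    (hG : AddSubmonoid.closure (G : Set P) = ⊤) {m : P} {n : I → ℤ} {l : E → ℤ} {c : ℝ}
    (hh : ∀ p ∈ Om I M e0 δ,
      Real.log (L p m) = Aff (fun i => (n i : ℝ)) (fun e => (l e : ℝ)) c p) (i : I) :
    0 ≤ n i := by
  classical
  by_contra hn
  push Not at hn
  have hδ := h.δpos
  have hbase := base_mem (I := I) (M := M) (e0 := e0) h.loopless h.δpos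
  let q : ℝ → (I → ℝ) × (E → ℝ) := fun s => (fun j => if j = i then s else δ / 2, fun _ => 0)
  have hqB : ∀ s, 0 ≤ s → s < δ → q s ∈ Bx I M e0 δ := by
    intro s h0 h1
    refine ⟨fun j => ?_, hbase.1.2.1, hbase.1.2.2.1, hbase.1.2.2.2⟩
    by_cases hj : j = i
    · simp only [q, hj, if_true]
      exact ⟨h0, h1⟩
    · simp only [q, hj, if_false]
      exact ⟨by linarith, by linarith⟩
  have hqO : ∀ s, 0 < s → s < δ → q s ∈ Om I M e0 δ := by
    intro s h0 h1
    refine ⟨hqB s h0.le h1, fun j => ?_⟩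
    by_cases hj : j = i
    · simp only [q, hj, if_true]
      exact h0
    · simp only [q, hj, if_false]
      linarith
  have hqc : Continuous q := by
    refine Continuous.prodMk (continuous_pi fun j => ?_) continuous_const
    by_cases hj : j = i
    · simp only [hj, if_true]
      exact continuous_id
    · simp only [hj, if_false]
      exact continuous_const
  have hev : ∀ᶠ s in 𝓝[>] (0 : ℝ), 0 < s ∧ s < δ := by
    filter_upwards [self_mem_nhdsWithin, mem_nhdsWithin_of_mem_nhds (Iio_mem_nhds hδ)] with s h1 h2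
    exact ⟨h1, h2⟩
  have hq0 : Filter.Tendsto q (𝓝[>] (0 : ℝ)) (𝓝[Bx I M e0 δ] (q 0)) := by
    refine tendsto_nhdsWithin_of_tendsto_nhds_of_eventually_within _
      (hqc.continuousAt.tendsto.mono_left nhdsWithin_le_nhds) ?_
    filter_upwards [hev] with s hs
    exact hqB s hs.1.le hs.2
  have hlim : Filter.Tendsto (fun s => L (q s) m) (𝓝[>] (0 : ℝ)) (𝓝 (L (q 0) m)) := by
    have h1 : Filter.Tendsto L (𝓝[Bx I M e0 δ] (q 0)) (𝓝 (L (q 0))) :=
      h.Lcont (q 0) (hqB 0 le_rfl hδ)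
    exact ((continuous_apply m).continuousAt.tendsto.comp h1).comp hq0
  -- the values
  have hval : ∀ s, 0 < s → s < δ → Real.log (L (q s) m) =
      (n i : ℝ) * Real.log s + ((∑ j ∈ Finset.univ.erase i, (n j : ℝ) * Real.log (δ / 2)) + c) := by
    intro s h0 h1
    rw [hh _ (hqO s h0 h1)]
    unfold Aff
    rw [← Finset.add_sum_erase Finset.univ _ (Finset.mem_univ i)]
    have e1 : ∑ j ∈ Finset.univ.erase i, (n j : ℝ) * Real.log ((q s).1 j) =
        ∑ j ∈ Finset.univ.erase i, (n j : ℝ) * Real.log (δ / 2) := by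
      refine Finset.sum_congr rfl fun j hj => ?_
      have hj' : j ≠ i := Finset.ne_of_mem_erase hj
      simp only [q, hj', if_false]
    rw [e1]
    simp only [q, if_true, mul_zero, Finset.sum_const_zero, add_zero]
    ring
  have hpos : ∀ s, 0 < s → s < δ → 0 < L (q s) m := by
    intro s h0 h1
    have hO := hqO s h0 h1
    have hb := h.Lmaps _ hO.1
    have hne := h.stratum_of_t hT hd hG hb (fun j => by
      rw [h.s4_t hO.1]; exact (hO.2 j).ne') m
    exact lt_of_le_of_ne ((hT _ hb.1).2.2 m) (Ne.symm hne)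
  have hlog : Filter.Tendsto (fun s => Real.log (L (q s) m)) (𝓝[>] (0 : ℝ)) Filter.atTop := by
    have h1 : Filter.Tendsto (fun s : ℝ => (n i : ℝ) * Real.log s +
        ((∑ j ∈ Finset.univ.erase i, (n j : ℝ) * Real.log (δ / 2)) + c)) (𝓝[>] (0 : ℝ))
        Filter.atTop := by
      refine Filter.tendsto_atTop_add_const_right _ _ ?_
      exact Real.tendsto_log_nhdsGT_zero.const_mul_atBot_of_neg (by exact_mod_cast hn)
    refine h1.congr' ?_
    filter_upwards [hev] with s hs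
    exact (hval s hs.1 hs.2).symm
  have htop : Filter.Tendsto (fun s => L (q s) m) (𝓝[>] (0 : ℝ)) Filter.atTop := by
    refine (Real.tendsto_exp_atTop.comp hlog).congr' ?_
    filter_upwards [hev] with s hs
    exact Real.exp_log (hpos s hs.1 hs.2)
  exact not_tendsto_nhds_of_tendsto_atTop htop _ hlim

/-- Every character is a monomial in the coordinates, on the whole chart. -/
theorem LM.coord (h : LM T w t y M e0 U δ L) (hT : IsTr T) (hd : Dns T) {G : Finset P}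
    (hG : AddSubmonoid.closure (G : Set P) = ⊤) (m : P) :
    ∃ (n : I → ℕ) (l : E → ℤ) (c : ℝ), ∀ b ∈ T ∩ U, b m = Real.exp c * (∏ i, t i b ^ n i) *
      Real.exp (∑ e, (l e : ℝ) * y e b) := by
  obtain ⟨n, l, c, hh⟩ := h.s4_glob hT hd hG m
  have hn := h.s4_nonneg hT hd hG hh
  refine ⟨fun i => (n i).toNat, l, c, ?_⟩
  have hc : ContinuousOn (cm t y) (T ∩ U) := h.cont
  have hct : ∀ i, ContinuousOn (t i) (T ∩ U) := fun i =>
    (continuous_apply i).comp_continuousOn (continuous_fst.comp_continuousOn hc)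
  have hcy : ∀ e, ContinuousOn (y e) (T ∩ U) := fun e =>
    (continuous_apply e).comp_continuousOn (continuous_snd.comp_continuousOn hc)
  have key : Set.EqOn (fun b : P → ℝ => b m) (fun b => Real.exp c * (∏ i, t i b ^ (n i).toNat) *
      Real.exp (∑ e, (l e : ℝ) * y e b)) (T ∩ U) := by
    refine Set.EqOn.of_subset_closure (s := {b | b ∈ T ∩ U ∧ ∀ i, t i b ≠ 0}) ?_
      (continuous_apply m).continuousOn ?_ (fun b hb => hb.1) ?_
    · rintro b ⟨hb, ht⟩
      show b m = _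
      rw [h.s4_open hT hd hG hh hb ht]
      refine congrArg₂ _ (congrArg _ (Finset.prod_congr rfl fun i _ => ?_)) rfl
      rw [← zpow_natCast, Int.toNat_of_nonneg (hn i)]
    · refine (ContinuousOn.mul continuousOn_const ?_).mul ?_
      · exact continuousOn_finset_prod _ fun i _ => (hct i).pow _
      · exact (continuousOn_finset_sum _ fun e _ =>
          continuousOn_const.mul (hcy e)).rexp
    · intro b hb
      rw [mem_closure_iff_nhds]
      intro V hV
      obtain ⟨b', ⟨hbT, hbV⟩, hb'⟩ := hd b hb.1 (V ∩ U)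
        (Filter.inter_mem hV (h.isOpen.mem_nhds hb.2))
      have hTU : b' ∈ T ∩ U := ⟨hbT, hbV.2⟩
      exact ⟨b', hbV.1, hTU, fun i => h.t_of_stratum hT hG hTU hb' i⟩
  exact fun b hb => key hb

/-- The coordinates `t` are quotients of characters on the open stratum. -/
theorem LM.coord_t (h : LM T w t y M e0 U δ L) (hT : IsTr T) (hd : Dns T) {G : Finset P}
    (hG : AddSubmonoid.closure (G : Set P) = ⊤) (i : I) : ∃ (m m' : P) (c : ℝ),
      ∀ b ∈ T ∩ U, (∀ j, t j b ≠ 0) → t i b = Real.exp c * (b m / b m') := by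
  classical
  have hp0 := base_mem (I := I) (M := M) (e0 := e0) h.loopless h.δpos
  set p0 : (I → ℝ) × (E → ℝ) := (fun _ => δ / 2, fun _ => 0) with hp0def
  have hb0 := h.Lmaps p0 hp0.1
  have ht0 : t i (L p0) ≠ 0 := by
    rw [h.s4_t hp0.1]; exact (hp0.2 i).ne'
  obtain ⟨m, m', c, -, -, hc⟩ := h.afft (L p0) hb0 i ht0
  obtain ⟨n1, l1, c1, h1⟩ := h.s4_glob hT hd hG m
  obtain ⟨n2, l2, c2, h2⟩ := h.s4_glob hT hd hG m'
  have hsub : ∀ p : (I → ℝ) × (E → ℝ),
      Aff (fun i => (n1 i : ℝ) - n2 i) (fun e => (l1 e : ℝ) - l2 e) (c1 - c2 + c) p =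
      Aff (fun i => (n1 i : ℝ)) (fun e => (l1 e : ℝ)) c1 p -
        Aff (fun i => (n2 i : ℝ)) (fun e => (l2 e : ℝ)) c2 p + c := by
    intro p
    unfold Aff
    simp only [sub_mul, Finset.sum_sub_distrib]
    ring
  have hgerm : ∀ᶠ p in 𝓝[Om I M e0 δ] p0, Real.log (p.1 i) =
      Aff (fun i => (n1 i : ℝ) - n2 i) (fun e => (l1 e : ℝ) - l2 e) (c1 - c2 + c) p := by
    filter_upwards [(h.s4_tend hp0).eventually hc, self_mem_nhdsWithin] with p hp hpO
    rw [hsub, ← h1 p hpO, ← h2 p hpO, ← h.s4_t hpO.1 i]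
    exact hp
  have hall := glob (g := fun p : (I → ℝ) × (E → ℝ) => Real.log (p.1 i)) (fun p _ =>
    ⟨Pi.single i 1, 0, 0, Filter.Eventually.of_forall fun p' => by
      unfold Aff
      simp [Pi.single_apply]⟩) hp0 rfl hgerm
  refine ⟨m, m', c, fun b hb ht => ?_⟩
  have hom := h.s4_om hb ht
  have e1 := hall _ hom
  rw [hsub, ← h1 _ hom, ← h2 _ hom, h.left b hb] at e1
  have e2 : Real.log (t i b) = Real.log (b m) - Real.log (b m') + c := e1
  have hti : 0 < t i b := hom.2 i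
  have pos : ∀ m, 0 < b m := fun m =>
    lt_of_le_of_ne ((hT b hb.1).2.2 m) (Ne.symm (h.stratum_of_t hT hd hG hb ht m))
  rw [← Real.exp_log hti, e2, Real.exp_add, Real.exp_sub, Real.exp_log (pos m),
    Real.exp_log (pos m')]
  ring

/-- The coordinates `y` near `w`. -/
theorem LM.coord_y (h : LM T w t y M e0 U δ L) (hT : IsTr T)
    (hu : ∀ m : P, w m ≠ 0 → ∃ m' : P, m + m' = 0) (e : E) : ∃ m : P, w m ≠ 0 ∧
      ∀ᶠ b in 𝓝[T] w, y e b = Real.log (b m) - Real.log (w m) := by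
  obtain ⟨m1, m2, c, h1, h2, hc⟩ := h.affy w ⟨h.hw, h.w_mem⟩ e
  obtain ⟨m2', hm⟩ := hu m2 h2
  have hprod : ∀ b ∈ T, b m2 * b m2' = 1 := fun b hb => by
    rw [← (hT b hb).2.1, hm, (hT b hb).1]
  have hlog : ∀ b ∈ T, b m1 ≠ 0 →
      Real.log (b (m1 + m2')) = Real.log (b m1) - Real.log (b m2) := by
    intro b hb hb1
    have hp := hprod b hb
    have hb2 : b m2 ≠ 0 := left_ne_zero_of_mul_eq_one hp
    have hb2' : b m2' ≠ 0 := right_ne_zero_of_mul_eq_one hp
    have e2 : Real.log (b m2) + Real.log (b m2') = 0 := by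
      rw [← Real.log_mul hb2 hb2', hp, Real.log_one]
    rw [(hT b hb).2.1, Real.log_mul hb1 hb2']
    linarith
  have hw0 := hc.self_of_nhdsWithin h.hw
  rw [h.yw e] at hw0
  refine ⟨m1 + m2', ?_, ?_⟩
  · rw [(hT w h.hw).2.1]
    exact mul_ne_zero h1 (right_ne_zero_of_mul_eq_one (hprod w h.hw))
  · have hne : ∀ᶠ b in 𝓝[T] w, b m1 ≠ 0 :=
      nhdsWithin_le_nhds ((continuous_apply m1).continuousAt.eventually_ne h1)
    filter_upwards [hc, hne, self_mem_nhdsWithin] with b hb hb1 hbT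
    rw [hb, hlog b hbT hb1, hlog w h.hw h1]
    linarith

/-- The exponents are unique. -/
theorem LM.coord_uniq (h : LM T w t y M e0 U δ L) {n n' : I → ℤ} {l l' : E → ℤ} {c c' : ℝ}
    (he : ∀ b ∈ T ∩ U, (∀ i, t i b ≠ 0) →
      Real.exp c * (∏ i, t i b ^ n i) * Real.exp (∑ e, (l e : ℝ) * y e b) =
      Real.exp c' * (∏ i, t i b ^ n' i) * Real.exp (∑ e, (l' e : ℝ) * y e b)) :
    n = n' ∧ c = c' := by
  have hall : ∀ p ∈ Om I M e0 δ, Aff (fun i => (n i : ℝ)) (fun e => (l e : ℝ)) c p =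
      Aff (fun i => (n' i : ℝ)) (fun e => (l' e : ℝ)) c' p := by
    intro p hp
    have h1 := he (L p) (h.Lmaps p hp.1) (fun i => by
      rw [h.s4_t hp.1]; exact (hp.2 i).ne')
    simp only [h.s4_t hp.1, h.s4_y hp.1] at h1
    rw [← s4_exp n l c hp.2, ← s4_exp n' l' c' hp.2] at h1
    exact Real.exp_injective h1
  obtain ⟨h1, h2⟩ := aff_uniq h.loopless h.δpos hall
  refine ⟨funext fun i => ?_, h2⟩
  have h3 := congrFun h1 i
  exact_mod_cast h3

end Pool.Agent.TD.R
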