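import Pool.Agent.TD.R.S4
import Pool.Agent.TD.X2.Loc
import Pool.Agent.TD.N.All

/-! Block R: the saturated algebra of characters at a point (module TD_R_S5). -/

open scoped Topology NNReal

namespace Pool.Agent.TD.R

open X2

section basic

variable {K A A' N : Type} [NormedField K] [CommRing A] [Algebra K A] [CommRing A']
  [Algebra K A'] [AddCommGroup N] {P : AddSubmonoid N} {r : A →ₐ[K] A'} {χ : P → A} {χ' : N → A'}

theorem isTr_range (hC : Chars K P r χ χ') : IsTr (Set.range (X2.tr (K := K) χ)) := by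
  rintro _ ⟨z, rfl⟩
  exact ⟨hC.tr_zero z, hC.tr_add z, fun m => z.nonneg _⟩

/-- Characters of a domain are non-zero. -/
theorem chi_ne_zero [Nontrivial A'] (hC : Chars K P r χ χ') (m : P) : χ m ≠ 0 := by
  intro h0
  have h1 : χ' m = 0 := by rw [← hC.comp, h0, map_zero]
  have h2 : χ' ((m : N) + -m) = χ' m * χ' (-(m : N)) := hC.add' _ _
  rw [add_neg_cancel, hC.zero', h1, zero_mul] at h2
  exact one_ne_zero h2

/-- The points of `M(A')` are dense in `M(A)`. -/
theorem dense_res [IsUltrametricDist K] [IsDomain A'] (hC : Chars K P r χ χ')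
    (z : Ber K A) {V : Set (Ber K A)} (hV : V ∈ 𝓝 z) : ∃ z' : Ber K A', Ber.res r z' ∈ V := by
  classical
  have : IsDomain A := hC.inj.isDomain r
  have : Algebra.FiniteType K A := hC.finiteType
  obtain ⟨G, hG⟩ := hC.exists_gens
  have hf : (∏ g ∈ G, χ g) ≠ 0 := Finset.prod_ne_zero_iff.2 fun g _ => chi_ne_zero hC g
  obtain ⟨z1, hz1, hne⟩ := X2.exists_ne' hf z hV
  have hg : ∀ g ∈ G, z1.v (χ g) ≠ 0 := by
    intro g hg h0
    apply hne
    rw [← Finset.mul_prod_erase G _ hg, z1.mul, h0, zero_mul]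
  have hall : ∀ m : P, z1.v (χ m) ≠ 0 := by
    intro m
    have hm : m ∈ AddSubmonoid.closure (G : Set P) := by rw [hG]; trivial
    induction hm using AddSubmonoid.closure_induction with
    | mem x hx => exact hg x hx
    | zero => rw [hC.zero, z1.one]; exact one_ne_zero
    | add x y _ _ hx hy => rw [hC.add, z1.mul]; exact mul_ne_zero hx hy
  obtain ⟨z', rfl⟩ := hC.exists_ext z1 hall
  exact ⟨z', hz1⟩

theorem dns_range [IsUltrametricDist K] [IsDomain A'] (hC : Chars K P r χ χ') :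
    Dns (Set.range (X2.tr (K := K) χ)) := by
  rintro _ ⟨z, rfl⟩ V hV
  have h1 : X2.tr (K := K) χ ⁻¹' V ∈ 𝓝 z := (X2.continuous_tr χ).continuousAt.preimage_mem_nhds hV
  obtain ⟨z', hz'⟩ := dense_res hC z h1
  refine ⟨X2.tr χ (Ber.res r z'), ⟨⟨_, rfl⟩, hz'⟩, fun m => ?_⟩
  rw [hC.tr_res]
  exact hC.v_ne z' m

end basic

variable {K A A' N I E : Type} [NormedField K] [CommRing A] [Algebra K A]
  [CommRing A'] [Algebra K A'] [AddCommGroup N] {P : AddSubmonoid N} {r : A →ₐ[K] A'} {χ : P → A}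
  {χ' : N → A'} [Fintype I] [Fintype E] {w : P → ℝ} {t : I → (P → ℝ) → ℝ}
  {y : E → (P → ℝ) → ℝ} {M : Matroid E} {e0 : E} {U : Set (P → ℝ)} {δ : ℝ}
  {L : (I → ℝ) × (E → ℝ) → P → ℝ}

/-- The exponents `nn m i` of the coordinates `t i` in the character `m`, and characters `μ i` which
are multiples of `t i`. -/
structure IsNN (K : Type) {A A' N I E : Type} [NormedField K] [CommRing A] [Algebra K A]
    [CommRing A'] [Algebra K A'] [AddCommGroup N] {P : AddSubmonoid N} [Fintype I] [Fintype E]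
    (r : A →ₐ[K] A') (χ : P → A) (χ' : N → A') (t : I → (P → ℝ) → ℝ) (y : E → (P → ℝ) → ℝ)
    (U : Set (P → ℝ)) (nn : N →+ (I → ℤ)) (μ : I → N) (cμ : I → ℝ) : Prop where
  nonneg : ∀ (m : P) (i : I), 0 ≤ nn m i
  one : ∀ i, nn (μ i) i = 1
  zero : ∀ i j, i ≠ j → nn (μ i) j = 0
  tμ : ∀ (z : Ber K A'), X2.tr χ (Ber.res r z) ∈ U → ∀ i,
    t i (X2.tr χ (Ber.res r z)) = Real.exp (cμ i) * z.v (χ' (μ i))
  mon : ∀ m : N, ∃ (l : E → ℤ) (c : ℝ), ∀ z : Ber K A', X2.tr χ (Ber.res r z) ∈ U →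
    z.v (χ' m) = Real.exp c * (∏ i, t i (X2.tr χ (Ber.res r z)) ^ nn m i) *
      Real.exp (∑ e, (l e : ℝ) * y e (X2.tr χ (Ber.res r z)))

theorem s5_t_ne [IsUltrametricDist K] [IsDomain A'] (hC : Chars K P r χ χ')
    (h : LM (Set.range (X2.tr (K := K) χ)) w t y M e0 U δ L) (z : Ber K A')
    (hz : X2.tr χ (Ber.res r z) ∈ U) (i : I) : t i (X2.tr χ (Ber.res r z)) ≠ 0 := by
  obtain ⟨G, hG⟩ := hC.exists_gens
  refine h.t_of_stratum (isTr_range hC) hG ⟨⟨_, rfl⟩, hz⟩ (fun m => ?_) i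
  rw [hC.tr_res]
  exact hC.v_ne z m

theorem s5_pt [IsUltrametricDist K] [IsDomain A'] (hC : Chars K P r χ χ')
    (h : LM (Set.range (X2.tr (K := K) χ)) w t y M e0 U δ L) {b : P → ℝ}
    (hb : b ∈ Set.range (X2.tr (K := K) χ) ∩ U) (ht : ∀ i, t i b ≠ 0) :
    ∃ z : Ber K A', X2.tr χ (Ber.res r z) = b := by
  obtain ⟨G, hG⟩ := hC.exists_gens
  have hne := h.stratum_of_t (isTr_range hC) (dns_range hC) hG hb ht
  obtain ⟨⟨z0, rfl⟩, hU⟩ := hb
  obtain ⟨z, rfl⟩ := hC.exists_ext z0 hne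
  exact ⟨z, rfl⟩

/-- The character `m` is a monomial in the coordinates with exponents `n`. -/
def s5_Mon (K : Type) {A A' N I E : Type} [NormedField K] [CommRing A] [Algebra K A]
    [CommRing A'] [Algebra K A'] [AddCommGroup N] {P : AddSubmonoid N} [Fintype I] [Fintype E]
    (r : A →ₐ[K] A') (χ : P → A) (χ' : N → A') (t : I → (P → ℝ) → ℝ) (y : E → (P → ℝ) → ℝ)
    (U : Set (P → ℝ)) (m : N) (n : I → ℤ) : Prop :=
  ∃ (l : E → ℤ) (c : ℝ), ∀ z : Ber K A', X2.tr χ (Ber.res r z) ∈ U →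
    z.v (χ' m) = Real.exp c * (∏ i, t i (X2.tr χ (Ber.res r z)) ^ n i) *
      Real.exp (∑ e, (l e : ℝ) * y e (X2.tr χ (Ber.res r z)))

theorem s5_uniq [IsUltrametricDist K] [IsDomain A'] (hC : Chars K P r χ χ')
    (h : LM (Set.range (X2.tr (K := K) χ)) w t y M e0 U δ L) {m : N} {n n' : I → ℤ}
    (h1 : s5_Mon K r χ χ' t y U m n) (h2 : s5_Mon K r χ χ' t y U m n') : n = n' := by
  obtain ⟨l, c, h1⟩ := h1
  obtain ⟨l', c', h2⟩ := h2
  refine (h.coord_uniq (c := c) (c' := c') (l := l) (l' := l') fun b hb ht => ?_).1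
  obtain ⟨z, rfl⟩ := s5_pt hC h hb ht
  rw [← h1 z hb.2, ← h2 z hb.2]

theorem s5_add [IsUltrametricDist K] [IsDomain A'] (hC : Chars K P r χ χ')
    (h : LM (Set.range (X2.tr (K := K) χ)) w t y M e0 U δ L) {m m' : N} {n n' : I → ℤ}
    (h1 : s5_Mon K r χ χ' t y U m n) (h2 : s5_Mon K r χ χ' t y U m' n') :
    s5_Mon K r χ χ' t y U (m + m') (n + n') := by
  obtain ⟨l, c, h1⟩ := h1
  obtain ⟨l', c', h2⟩ := h2
  refine ⟨l + l', c + c', fun z hz => ?_⟩
  rw [hC.add', z.mul, h1 z hz, h2 z hz, Real.exp_add]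
  have e1 : (∏ i, t i (X2.tr χ (Ber.res r z)) ^ (n + n') i) =
      (∏ i, t i (X2.tr χ (Ber.res r z)) ^ n i) * ∏ i, t i (X2.tr χ (Ber.res r z)) ^ n' i := by
    rw [← Finset.prod_mul_distrib]
    refine Finset.prod_congr rfl fun i _ => ?_
    rw [Pi.add_apply, zpow_add₀ (s5_t_ne hC h z hz i)]
  have e2 : (∑ e, ((l + l') e : ℝ) * y e (X2.tr χ (Ber.res r z))) =
      (∑ e, (l e : ℝ) * y e (X2.tr χ (Ber.res r z))) +
        ∑ e, (l' e : ℝ) * y e (X2.tr χ (Ber.res r z)) := by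
    rw [← Finset.sum_add_distrib]
    refine Finset.sum_congr rfl fun e _ => ?_
    rw [Pi.add_apply]
    push_cast
    ring
  rw [e1, e2, Real.exp_add]
  ring

theorem s5_neg [IsUltrametricDist K] [IsDomain A'] (hC : Chars K P r χ χ')
    {m : N} {n : I → ℤ} (h1 : s5_Mon K r χ χ' t y U m n) :
    s5_Mon K r χ χ' t y U (-m) (-n) := by
  obtain ⟨l, c, h1⟩ := h1
  refine ⟨-l, -c, fun z hz => ?_⟩
  have e0 : z.v (χ' (-m)) = (z.v (χ' m))⁻¹ := by
    have e : z.v (χ' (m + -m)) = z.v (χ' m) * z.v (χ' (-m)) := by rw [hC.add', z.mul]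
    rw [add_neg_cancel, hC.zero', z.one] at e
    exact eq_inv_of_mul_eq_one_right e.symm
  rw [e0, h1 z hz, mul_inv, mul_inv, ← Real.exp_neg, ← Real.exp_neg, ← Finset.prod_inv_distrib,
    ← Finset.sum_neg_distrib]
  refine congrArg₂ _ (congrArg _ (Finset.prod_congr rfl fun i _ => ?_))
    (congrArg _ (Finset.sum_congr rfl fun e _ => ?_))
  · rw [Pi.neg_apply, zpow_neg]
  · rw [Pi.neg_apply]
    push_cast
    ring

theorem s5_nat [IsUltrametricDist K] [IsDomain A'] (hC : Chars K P r χ χ')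
    (h : LM (Set.range (X2.tr (K := K) χ)) w t y M e0 U δ L) (m : P) :
    ∃ n : I → ℕ, s5_Mon K r χ χ' t y U (m : N) fun i => (n i : ℤ) := by
  obtain ⟨G, hG⟩ := hC.exists_gens
  obtain ⟨n, l, c, hh⟩ := h.coord (isTr_range hC) (dns_range hC) hG m
  refine ⟨n, l, c, fun z hz => ?_⟩
  have h1 := hh _ ⟨⟨_, rfl⟩, hz⟩
  rw [hC.tr_res] at h1
  rw [h1]
  simp only [zpow_natCast]

theorem exists_nn [IsUltrametricDist K] [IsDomain A'] (hC : Chars K P r χ χ')
    (h : LM (Set.range (X2.tr (K := K) χ)) w t y M e0 U δ L) : ∃ nn μ cμ,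
    IsNN K r χ χ' t y U nn μ cμ := by
  classical
  obtain ⟨G, hG⟩ := hC.exists_gens
  have hex : ∀ m : N, ∃ n : I → ℤ, s5_Mon K r χ χ' t y U m n := by
    intro m
    obtain ⟨a, a', rfl⟩ := hC.gen m
    obtain ⟨n, hn⟩ := s5_nat hC h a
    obtain ⟨n', hn'⟩ := s5_nat hC h a'
    rw [sub_eq_add_neg]
    exact ⟨_, s5_add hC h hn (s5_neg hC hn')⟩
  choose n hn using hex
  have hmu : ∀ i, ∃ (m : N) (c : ℝ), ∀ (z : Ber K A'), X2.tr χ (Ber.res r z) ∈ U →
      t i (X2.tr χ (Ber.res r z)) = Real.exp c * z.v (χ' m) := by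
    intro i
    obtain ⟨m, m', c, hh⟩ := h.coord_t (isTr_range hC) (dns_range hC) hG i
    refine ⟨(m : N) - m', c, fun z hz => ?_⟩
    rw [hh _ ⟨⟨_, rfl⟩, hz⟩ (s5_t_ne hC h z hz), hC.tr_res, hC.tr_res]
    have e : z.v (χ' ((m : N) - m')) * z.v (χ' m') = z.v (χ' m) := by
      rw [← z.mul, ← hC.add', sub_add_cancel]
    rw [← e, mul_div_cancel_right₀ _ (hC.v_ne z m')]
  choose μ cμ hμ using hmu
  have hμn : ∀ i, n (μ i) = Pi.single i 1 := by
    intro i
    refine s5_uniq hC h (hn _) ⟨0, -cμ i, fun z hz => ?_⟩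
    have e1 : (∏ j, t j (X2.tr χ (Ber.res r z)) ^ (Pi.single i 1 : I → ℤ) j) =
        t i (X2.tr χ (Ber.res r z)) := by
      rw [Finset.prod_eq_single i]
      · rw [Pi.single_eq_same, zpow_one]
      · intro j _ hj
        rw [Pi.single_eq_of_ne hj, zpow_zero]
      · intro hi
        exact absurd (Finset.mem_univ i) hi
    have e2 : (∑ e, ((0 : E → ℤ) e : ℝ) * y e (X2.tr χ (Ber.res r z))) = 0 :=
      Finset.sum_eq_zero fun e _ => by rw [Pi.zero_apply, Int.cast_zero, zero_mul]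
    rw [e1, e2, Real.exp_zero, mul_one, hμ i z hz, ← mul_assoc, ← Real.exp_add, neg_add_cancel,
      Real.exp_zero, one_mul]
  refine ⟨AddMonoidHom.mk' n fun m m' => s5_uniq hC h (hn _) (s5_add hC h (hn m) (hn m')), μ, cμ,
    fun m i => ?_, fun i => ?_, fun i j hij => ?_, fun z hz i => hμ i z hz, hn⟩
  · obtain ⟨n', hn'⟩ := s5_nat hC h m
    have e := s5_uniq hC h (hn m) hn'
    show 0 ≤ n m i
    rw [e]
    exact Int.natCast_nonneg _
  · show n (μ i) i = 1
    rw [hμn, Pi.single_eq_same]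
  · show n (μ i) j = 0
    rw [hμn, Pi.single_eq_of_ne (Ne.symm hij)]

/-- The characters with non-negative exponents. -/
def P2 (nn : N →+ (I → ℤ)) : AddSubmonoid N where
  carrier := {m | ∀ i, 0 ≤ nn m i}
  zero_mem' := fun i => by rw [map_zero]; exact le_rfl
  add_mem' := fun {a b} ha hb i => by
    rw [map_add, Pi.add_apply]
    exact add_nonneg (ha i) (hb i)

theorem P2_fg {nn : N →+ (I → ℤ)} {μ : I → N} (hN : AddGroup.FG N) (h1 : ∀ i, nn (μ i) i = 1)
    (h0 : ∀ i j, i ≠ j → nn (μ i) j = 0) : (P2 nn).FG := by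
  classical
  have hfin : Module.Finite ℤ N := Module.Finite.iff_addGroup_fg.2 hN
  have hker : (AddSubgroup.toIntSubmodule nn.ker).FG := IsNoetherian.noetherian _
  obtain ⟨S, hS⟩ := hker
  have hS' : AddSubgroup.closure (S : Set N) = nn.ker := by
    rw [← Submodule.span_int_eq_addSubgroupClosure, hS]
    rfl
  refine (AddSubmonoid.fg_iff _).2 ⟨((S : Set N) ∪ -(S : Set N)) ∪ Set.range μ, ?_, ?_⟩
  · have hk : ∀ m ∈ nn.ker, m ∈ P2 nn := by
      intro m hm i
      have e : nn m = 0 := hm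
      rw [e]
      exact le_rfl
    have hSk : ∀ m ∈ S, m ∈ nn.ker := fun m hm => by
      rw [← hS']
      exact AddSubgroup.subset_closure hm
    refine le_antisymm ?_ ?_
    · rw [AddSubmonoid.closure_le]
      rintro m ((hm | hm) | ⟨i, rfl⟩)
      · exact hk m (hSk m hm)
      · have h3 : -m ∈ nn.ker := hSk (-m) hm
        exact hk m (by simpa using neg_mem h3)
      · intro j
        by_cases hij : i = j
        · subst hij
          rw [h1]
          exact zero_le_one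
        · rw [h0 i j hij]
    · intro m hm
      have e1 : m = (m - ∑ i, (nn m i).toNat • μ i) + ∑ i, (nn m i).toNat • μ i := by
        rw [sub_add_cancel]
      rw [e1]
      have hμc : ∀ i, μ i ∈ AddSubmonoid.closure (((S : Set N) ∪ -(S : Set N)) ∪ Set.range μ) :=
        fun i => AddSubmonoid.subset_closure (Or.inr ⟨i, rfl⟩)
      refine add_mem ?_ (sum_mem fun i _ => nsmul_mem (hμc i) _)
      have h4 : (m - ∑ i, (nn m i).toNat • μ i) ∈ nn.ker := by
        rw [AddMonoidHom.mem_ker, map_sub, map_sum]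
        funext j
        rw [Pi.sub_apply, Finset.sum_apply, Finset.sum_eq_single j]
        · rw [map_nsmul, Pi.smul_apply, h1, nsmul_eq_mul, mul_one, Int.toNat_of_nonneg (hm j),
            sub_self]
          rfl
        · intro i _ hij
          rw [map_nsmul, Pi.smul_apply, h0 i j hij, smul_zero]
        · intro hj
          exact absurd (Finset.mem_univ j) hj
      rw [← hS', ← AddSubgroup.mem_toAddSubmonoid, AddSubgroup.closure_toAddSubmonoid] at h4
      exact AddSubmonoid.closure_mono Set.subset_union_left h4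
  · exact (S.finite_toSet.union S.finite_toSet.neg).union (Set.finite_range μ)

/-- The algebra spanned by these characters. -/
def A2 (K : Type) {A' N I : Type} [NormedField K] [CommRing A'] [Algebra K A'] [AddCommGroup N]
    (χ' : N → A') (nn : N →+ (I → ℤ)) : Subalgebra K A' :=
  Algebra.adjoin K (Set.range fun m : P2 nn => χ' m)

/-- Its characters. -/
def chi2 (K : Type) {A' N I : Type} [NormedField K] [CommRing A'] [Algebra K A']
    [AddCommGroup N] (χ' : N → A') (nn : N →+ (I → ℤ)) (m : P2 nn) : A2 K χ' nn :=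
  ⟨χ' m, Algebra.subset_adjoin ⟨m, rfl⟩⟩

omit [Fintype I] in
theorem s5_mem {nn : N →+ (I → ℤ)} (hC : Chars K P r χ χ') {a : A'} (ha : a ∈ A2 K χ' nn) :
    ∃ F : P2 nn →₀ K, (F.sum fun m c => c • χ' (m : N)) = a := by
  rw [← Finsupp.mem_span_range_iff_exists_finsupp]
  have h1 : a ∈ Subalgebra.toSubmodule (A2 K χ' nn) := ha
  unfold A2 at h1
  rw [Algebra.adjoin_eq_span] at h1
  refine Submodule.span_mono ?_ h1
  intro x hx
  induction hx using Submonoid.closure_induction with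
  | mem x hx => exact hx
  | one => exact ⟨0, hC.zero'⟩
  | mul x y _ _ hx hy =>
    obtain ⟨m, rfl⟩ := hx
    obtain ⟨m', rfl⟩ := hy
    exact ⟨m + m', hC.add' _ _⟩

theorem chars2 {nn : N →+ (I → ℤ)} {μ : I → N} {cμ : I → ℝ} (hC : Chars K P r χ χ')
    (h : IsNN K r χ χ' t y U nn μ cμ) : Chars K (P2 nn) (A2 K χ' nn).val (chi2 K χ' nn) χ' where
  zero := Subtype.ext hC.zero'
  add m m' := Subtype.ext (hC.add' m m')
  zero' := hC.zero'
  add' := hC.add'
  comp m := rfl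
  span a := by
    obtain ⟨F, hF⟩ := s5_mem hC a.2
    refine ⟨F, Subtype.ext ?_⟩
    rw [← hF]
    unfold Finsupp.sum
    rw [AddSubmonoidClass.coe_finsetSum]
    refine Finset.sum_congr rfl fun m _ => ?_
    exact (Algebra.smul_def (F m) (χ' (m : N))).symm
  span' := hC.span'
  inj := Subtype.val_injective
  gen m := by
    obtain ⟨a, b, e⟩ := hC.gen m
    exact ⟨⟨a, fun i => h.nonneg a i⟩, ⟨b, fun i => h.nonneg b i⟩, e⟩
  fgP := P2_fg hC.fgN h.one h.zero

theorem mem_A2 {nn : N →+ (I → ℤ)} {μ : I → N} {cμ : I → ℝ} (hC : Chars K P r χ χ')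
    (h : IsNN K r χ χ' t y U nn μ cμ) (a : A) : r a ∈ A2 K χ' nn := by
  obtain ⟨F, rfl⟩ := hC.span a
  unfold Finsupp.sum
  rw [map_sum]
  refine sum_mem fun m _ => ?_
  rw [map_mul, r.commutes, hC.comp]
  exact mul_mem (Subalgebra.algebraMap_mem _ _)
    (Algebra.subset_adjoin ⟨⟨m, fun i => h.nonneg m i⟩, rfl⟩)

/-- The inclusion `A → A2`. -/
def rho2 {nn : N →+ (I → ℤ)} {μ : I → N} {cμ : I → ℝ} (hC : Chars K P r χ χ')
    (h : IsNN K r χ χ' t y U nn μ cμ) : A →ₐ[K] A2 K χ' nn :=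
  r.codRestrict _ (mem_A2 hC h)

theorem rho2_chi {nn : N →+ (I → ℤ)} {μ : I → N} {cμ : I → ℝ} (hC : Chars K P r χ χ')
    (h : IsNN K r χ χ' t y U nn μ cμ) (m : P) :
    rho2 hC h (χ m) = chi2 K χ' nn ⟨m, fun i => h.nonneg m i⟩ := by
  apply Subtype.ext
  exact hC.comp m

end Pool.Agent.TD.R
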