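import Pool.Agent.TD.R.S5

/-! Block R: points of the saturated algebra (module TD_R_S6). -/

open scoped Topology NNReal

namespace Pool.Agent.TD.R

open X2

variable {K A A' N I E : Type} [NormedField K] [IsUltrametricDist K] [CommRing A] [Algebra K A]
  [CommRing A'] [IsDomain A'] [Algebra K A'] [AddCommGroup N] {P : AddSubmonoid N}
  {r : A →ₐ[K] A'} {χ : P → A} {χ' : N → A'} [Fintype I] [Fintype E] {w : P → ℝ}
  {t : I → (P → ℝ) → ℝ} {y : E → (P → ℝ) → ℝ} {M : Matroid E} {e0 : E} {U : Set (P → ℝ)} {δ : ℝ}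
  {L : (I → ℝ) × (E → ℝ) → P → ℝ} {nn : N →+ (I → ℤ)} {μ : I → N} {cμ : I → ℝ}

/-- The character `μ i` in `P2`. -/
def mu2 (hN : IsNN K r χ χ' t y U nn μ cμ) (i : I) : P2 nn :=
  ⟨μ i, fun j => by
    by_cases hij : i = j
    · subst hij
      rw [hN.one]
      exact zero_le_one
    · rw [hN.zero i j hij]⟩

omit [IsUltrametricDist K] [IsDomain A'] in
/-- Restriction of a point of `M(A')` in two steps. -/
theorem S6.res_res (hC : Chars K P r χ χ') (hN : IsNN K r χ χ' t y U nn μ cμ) (z : Ber K A') :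
    Ber.res (rho2 hC hN) (Ber.res (A2 K χ' nn).val z) = Ber.res r z := by
  apply Ber.ext_v
  intro a
  rfl

omit [IsUltrametricDist K] [IsDomain A'] in
theorem S6.cont_tr (hC : Chars K P r χ χ') (hN : IsNN K r χ χ' t y U nn μ cμ) :
    Continuous fun z : Ber K (A2 K χ' nn) => X2.tr χ (Ber.res (rho2 hC hN) z) :=
  (X2.continuous_tr χ).comp (Ber.res_continuous _)

/-- Continuous functions which agree at the points of `M(A')` agree. -/
theorem S6.agree (hC : Chars K P r χ χ') (hN : IsNN K r χ χ' t y U nn μ cμ)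
    {f g : Ber K (A2 K χ' nn) → ℝ} {S : Set (Ber K (A2 K χ' nn))} (hS : IsOpen S)
    (hf : ContinuousOn f S) (hg : ContinuousOn g S)
    (h : ∀ z : Ber K A', Ber.res (A2 K χ' nn).val z ∈ S →
      f (Ber.res (A2 K χ' nn).val z) = g (Ber.res (A2 K χ' nn).val z))
    {z : Ber K (A2 K χ' nn)} (hz : z ∈ S) : f z = g z := by
  by_contra hne
  have hSz : S ∈ 𝓝 z := hS.mem_nhds hz
  have h0 : Filter.Tendsto (fun x => f x - g x) (𝓝 z) (𝓝 (f z - g z)) :=
    (hf.continuousAt hSz).sub (hg.continuousAt hSz)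
  have h1 : ∀ᶠ x in 𝓝 z, f x - g x ≠ 0 := h0.eventually_ne (sub_ne_zero.2 hne)
  obtain ⟨z', hz1, hz2⟩ := dense_res (chars2 hC hN) z (Filter.inter_mem h1 hSz)
  exact hz1 (sub_eq_zero.2 (h z' hz2))

omit [IsUltrametricDist K] [IsDomain A'] in
theorem S6.t_cont (h : LM (Set.range (X2.tr (K := K) χ)) w t y M e0 U δ L) (i : I) :
    ContinuousOn (t i) (Set.range (X2.tr (K := K) χ) ∩ U) :=
  ((continuous_apply i).comp continuous_fst).comp_continuousOn h.cont

omit [IsUltrametricDist K] [IsDomain A'] in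
theorem S6.y_cont (h : LM (Set.range (X2.tr (K := K) χ)) w t y M e0 U δ L) (e : E) :
    ContinuousOn (y e) (Set.range (X2.tr (K := K) χ) ∩ U) :=
  ((continuous_apply e).comp continuous_snd).comp_continuousOn h.cont

omit [IsUltrametricDist K] [IsDomain A'] in
/-- The formulas are continuous. -/
theorem S6.F_cont (h : LM (Set.range (X2.tr (K := K) χ)) w t y M e0 U δ L) (n : I → ℕ)
    (l : E → ℤ) (c : ℝ) :
    ContinuousOn (fun b : P → ℝ => Real.exp c * (∏ i, t i b ^ n i) *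
      Real.exp (∑ e, (l e : ℝ) * y e b)) (Set.range (X2.tr (K := K) χ) ∩ U) := by
  refine ContinuousOn.mul (ContinuousOn.mul continuousOn_const ?_) ?_
  · exact continuousOn_finsetProd _ fun i _ => (S6.t_cont h i).pow _
  · exact Real.continuous_exp.comp_continuousOn
      (continuousOn_finsetSum _ fun e _ => continuousOn_const.mul (S6.y_cont h e))

/-- The formulas at all points of `M(A2)` over the chart. -/
theorem mon2 (hC : Chars K P r χ χ')
    (h : LM (Set.range (X2.tr (K := K) χ)) w t y M e0 U δ L) (hN : IsNN K r χ χ' t y U nn μ cμ) :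
    (∀ z : Ber K (A2 K χ' nn), X2.tr χ (Ber.res (rho2 hC hN) z) ∈ U → ∀ i,
      t i (X2.tr χ (Ber.res (rho2 hC hN) z)) = Real.exp (cμ i) * z.v (chi2 K χ' nn (mu2 hN i))) ∧
    ∀ m : P2 nn, ∃ (l : E → ℤ) (c : ℝ), ∀ z : Ber K (A2 K χ' nn),
      X2.tr χ (Ber.res (rho2 hC hN) z) ∈ U → z.v (chi2 K χ' nn m) = Real.exp c *
        (∏ i, t i (X2.tr χ (Ber.res (rho2 hC hN) z)) ^ (nn m i).toNat) *
          Real.exp (∑ e, (l e : ℝ) * y e (X2.tr χ (Ber.res (rho2 hC hN) z))) := by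
  have hcont := S6.cont_tr hC hN
  have hS : IsOpen {z : Ber K (A2 K χ' nn) | X2.tr χ (Ber.res (rho2 hC hN) z) ∈ U} :=
    h.isOpen.preimage hcont
  have hmaps : Set.MapsTo (fun z : Ber K (A2 K χ' nn) => X2.tr χ (Ber.res (rho2 hC hN) z))
      {z : Ber K (A2 K χ' nn) | X2.tr χ (Ber.res (rho2 hC hN) z) ∈ U}
      (Set.range (X2.tr (K := K) χ) ∩ U) := fun z hz => ⟨⟨_, rfl⟩, hz⟩
  constructor
  · intro z hz i
    refine S6.agree hC hN (f := fun z => t i (X2.tr χ (Ber.res (rho2 hC hN) z)))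
      (g := fun z => Real.exp (cμ i) * z.v (chi2 K χ' nn (mu2 hN i))) hS
      ((S6.t_cont h i).comp hcont.continuousOn hmaps)
      (continuous_const.mul (Ber.continuous_v _)).continuousOn ?_ hz
    intro z' hz'
    have hz'' : X2.tr χ (Ber.res r z') ∈ U := by
      rw [← S6.res_res hC hN z']
      exact hz'
    have h1 := hN.tμ z' hz'' i
    rw [← S6.res_res hC hN z'] at h1
    exact h1
  · intro m
    obtain ⟨l, c, hlc⟩ := hN.mon m
    refine ⟨l, c, fun z hz => ?_⟩
    refine S6.agree hC hN (f := fun z => z.v (chi2 K χ' nn m))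
      (g := fun z => Real.exp c *
        (∏ i, t i (X2.tr χ (Ber.res (rho2 hC hN) z)) ^ (nn m i).toNat) *
          Real.exp (∑ e, (l e : ℝ) * y e (X2.tr χ (Ber.res (rho2 hC hN) z)))) hS
      (Ber.continuous_v _).continuousOn
      ((S6.F_cont h (fun i => (nn m i).toNat) l c).comp hcont.continuousOn hmaps) ?_ hz
    intro z' hz'
    have hz'' : X2.tr χ (Ber.res r z') ∈ U := by
      rw [← S6.res_res hC hN z']
      exact hz'
    have h1 := hlc z' hz''
    have h2 : ∀ i, t i (X2.tr χ (Ber.res r z')) ^ nn m i =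
        t i (X2.tr χ (Ber.res r z')) ^ (nn m i).toNat := by
      intro i
      conv_lhs => rw [← Int.toNat_of_nonneg (m.2 i)]
      rw [zpow_natCast]
    simp only [h2] at h1
    rw [← S6.res_res hC hN z'] at h1
    exact h1

/-- Every point of `M(A)` over the chart comes from a point of `M(A2)`. -/
theorem surj2 (hC : Chars K P r χ χ')
    (h : LM (Set.range (X2.tr (K := K) χ)) w t y M e0 U δ L) (hN : IsNN K r χ χ' t y U nn μ cμ)
    (z : Ber K A) (hz : X2.tr χ z ∈ U) : ∃ z2 : Ber K (A2 K χ' nn),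
      Ber.res (rho2 hC hN) z2 = z := by
  obtain ⟨-, h2⟩ := mon2 hC h hN
  choose l c hlc using h2
  obtain ⟨G, hG⟩ := (chars2 hC hN).exists_gens
  have hcomp := (chars2 hC hN).isCompact hG (fun m => Real.exp (c m) *
    (∏ i, t i (X2.tr χ z) ^ (nn m i).toNat) *
      Real.exp (∑ e, (l m e : ℝ) * y e (X2.tr χ z))) 1
  have hne : (Filter.comap (Ber.res r) (𝓝 z)).NeBot := by
    rw [Filter.comap_neBot_iff]
    intro V hV
    exact dense_res hC z hV
  let F : Ultrafilter (Ber K A') := Ultrafilter.of (Filter.comap (Ber.res r) (𝓝 z))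
  have hF : (F : Filter (Ber K A')) ≤ Filter.comap (Ber.res r) (𝓝 z) := Ultrafilter.of_le _
  have hFt : Filter.Tendsto (Ber.res r) (F : Filter (Ber K A')) (𝓝 z) :=
    Filter.map_le_iff_le_comap.2 hF
  have hU : ∀ᶠ z' in (F : Filter (Ber K A')), X2.tr χ (Ber.res r z') ∈ U :=
    (((X2.continuous_tr χ).tendsto z).comp hFt).eventually (h.isOpen.mem_nhds hz)
  have hFw : Filter.Tendsto (fun z' => X2.tr χ (Ber.res r z')) (F : Filter (Ber K A'))
      (𝓝[Set.range (X2.tr (K := K) χ) ∩ U] (X2.tr χ z)) := by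
    rw [tendsto_nhdsWithin_iff]
    refine ⟨((X2.continuous_tr χ).tendsto z).comp hFt, ?_⟩
    filter_upwards [hU] with z' hz'
    exact ⟨⟨_, rfl⟩, hz'⟩
  have hbd : ∀ m : P2 nn, ∀ᶠ z' in (F : Filter (Ber K A')),
      |(Ber.res (A2 K χ' nn).val z').v (chi2 K χ' nn m) - Real.exp (c m) *
        (∏ i, t i (X2.tr χ z) ^ (nn m i).toNat) *
          Real.exp (∑ e, (l m e : ℝ) * y e (X2.tr χ z))| ≤ 1 := by
    intro m
    have h3 := (S6.F_cont h (fun i => (nn m i).toNat) (l m) (c m)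
      (X2.tr χ z) ⟨⟨z, rfl⟩, hz⟩).tendsto.comp hFw
    have h4 := h3.eventually (Metric.closedBall_mem_nhds _ one_pos)
    filter_upwards [h4, hU] with z' hz1 hz2
    rw [Real.dist_eq] at hz1
    have h5 := hlc m (Ber.res (A2 K χ' nn).val z') (by rw [S6.res_res hC hN z']; exact hz2)
    rw [h5, S6.res_res hC hN z']
    exact hz1
  have hall : ∀ᶠ z' in (F : Filter (Ber K A')), Ber.res (A2 K χ' nn).val z' ∈
      {z2 : Ber K (A2 K χ' nn) | ∀ m ∈ G, |z2.v (chi2 K χ' nn m) - Real.exp (c m) *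
        (∏ i, t i (X2.tr χ z) ^ (nn m i).toNat) *
          Real.exp (∑ e, (l m e : ℝ) * y e (X2.tr χ z))| ≤ 1} :=
    (Filter.eventually_all_finset G).2 fun m _ => hbd m
  obtain ⟨z2, -, hz2⟩ := hcomp.ultrafilter_le_nhds (F.map (Ber.res (A2 K χ' nn).val))
    (Filter.le_principal_iff.2 hall)
  refine ⟨z2, ?_⟩
  have h6 : Filter.Tendsto (Ber.res (A2 K χ' nn).val) (F : Filter (Ber K A')) (𝓝 z2) := hz2
  have h7 := ((Ber.res_continuous (rho2 hC hN)).tendsto z2).comp h6
  have h8 : (Ber.res (rho2 hC hN)) ∘ (Ber.res (A2 K χ' nn).val) = Ber.res r :=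
    funext fun z' => S6.res_res hC hN z'
  rw [h8] at h7
  exact tendsto_nhds_unique h7 hFt

end Pool.Agent.TD.R
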