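import Pool.Agent.TD.R.S7
import Pool.Agent.TD.R.S1
import Pool.Agent.TD.X2.Ok
import Pool.Agent.TD.X3.ArrFib

/-! Block R: smooth points with weights one have arrangement fibres (module TD_R_S8). -/

open scoped Topology NNReal

namespace Pool.Agent.TD.R

open X2

variable {K A A' N k E : Type} [NormedField K] [IsUltrametricDist K] [CompleteSpace K]
  [CommRing A] [Algebra K A] [CommRing A'] [IsDomain A'] [Algebra K A'] [AddCommGroup N]
  {P : AddSubmonoid N} {r : A →ₐ[K] A'} {χ : P → A} {χ' : N → A'} [Fintype k] [Fintype E]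
  {w : P → ℝ} {x : k → (P → ℝ) → ℝ} {y : E → (P → ℝ) → ℝ} {M : Matroid E} {e0 : E}
  {U : Set (P → ℝ)}

namespace S8

/-- Rewriting the data of an arrangement fibre. -/
theorem cast {K A I E : Type} [NormedField K] [CommRing A] [Algebra K A] {D : NDat K A I E}
    {e0 : E} {T : E → A} {F : Set (Ber K A)} (he0 : D.e0 = e0) (hT : D.T = T) (hF : D.Fw = F)
    (h : ∃ (B : Set E) (c0 : (Bᶜ : Set E) → K) (c : (Bᶜ : Set E) → (B \ {D.e0} : Set E) → K),
      ArrFib K D.T D.ρ D.e0 B c0 c D.Fw) :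
    ∃ (B : Set E) (c0 : (Bᶜ : Set E) → K) (c : (Bᶜ : Set E) → (B \ {e0} : Set E) → K),
      ArrFib K T D.ρ e0 B c0 c F := by
  subst he0 hT hF
  exact h

end S8

/-- The local structure at a smooth point: a centred chart of the tropicalization whose finite
coordinates are characters `ch e`, and the fibre of the tropicalization map is an arrangement
fibre with the functions `χ (ch e)`. -/
theorem exists_arrFib (hC : Chars K P r χ χ')
    (hG : GChart (Set.range (X2.tr (K := K) χ)) w x y M e0 U)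
    (hu : ∀ m : P, w m ≠ 0 → ∃ m' : P, m + m' = 0) (hW : Wt K χ χ') :
    ∃ (I' E' : Type) (_ : Fintype I') (_ : Fintype E') (t' : I' → (P → ℝ) → ℝ)
      (y' : E' → (P → ℝ) → ℝ) (M' : Matroid E') (e0' : E') (U' : Set (P → ℝ)) (δ' : ℝ)
      (L' : (I' → ℝ) × (E' → ℝ) → P → ℝ) (ch : E' → P) (ρ : E' → ℝ≥0) (B : Set E')
      (c0 : (Bᶜ : Set E') → K) (c : (Bᶜ : Set E') → (B \ {e0'} : Set E') → K),
      LM (Set.range (X2.tr (K := K) χ)) w t' y' M' e0' U' δ' L' ∧ ch e0' = 0 ∧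
      (∀ e, w (ch e) ≠ 0) ∧
      (∀ b ∈ Set.range (X2.tr (K := K) χ) ∩ U', ∀ e,
        y' e b = Real.log (b (ch e)) - Real.log (w (ch e))) ∧
      ArrFib K (fun e => χ (ch e)) ρ e0' B c0 c {z | X2.tr χ z = w} := by
  classical
  haveI : Fintype {i : k // x i w = 0} := Fintype.ofFinite _
  haveI : Fintype {i : k // x i w ≠ 0} := Fintype.ofFinite _
  obtain ⟨M', U1, δ, L, hLM⟩ := hG.exists_LM
  have hT : IsTr (Set.range (X2.tr (K := K) χ)) := isTr_range hC
  have hw0 : w 0 = 1 := (hT w hLM.hw).1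
  choose ch1 hch1 hy1 using fun e => hLM.coord_y hT hu e
  set y' : E ⊕ {i : k // x i w ≠ 0} → (P → ℝ) → ℝ := Sum.elim (fun e b => y e b - y e w)
    fun (i : {i : k // x i w ≠ 0}) b => Real.log (x i.1 b) - Real.log (x i.1 w) with hy'
  obtain ⟨ch, hch⟩ : ∃ ch : E ⊕ {i : k // x i w ≠ 0} → P, ch (Sum.inl e0) = 0 ∧
      ∀ e, e ≠ Sum.inl e0 → ch e = ch1 e :=
    ⟨Function.update ch1 (Sum.inl e0) 0, Function.update_self _ _ _,
      fun e he => Function.update_of_ne he _ _⟩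
  have hchw : ∀ e, w (ch e) ≠ 0 := by
    intro e
    by_cases he : e = Sum.inl e0
    · rw [he, hch.1, hw0]
      exact one_ne_zero
    · rw [hch.2 e he]
      exact hch1 e
  have hev : ∀ e, ∀ᶠ b in 𝓝[Set.range (X2.tr (K := K) χ)] w,
      y' e b = Real.log (b (ch e)) - Real.log (w (ch e)) := by
    intro e
    by_cases he : e = Sum.inl e0
    · have h1 : ∀ᶠ b in 𝓝[Set.range (X2.tr (K := K) χ)] w, b ∈ U1 :=
        mem_nhdsWithin_of_mem_nhds (hLM.isOpen.mem_nhds hLM.w_mem)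
      filter_upwards [h1, self_mem_nhdsWithin] with b hb1 hb2
      rw [he, hch.1, hw0, (hT b hb2).1, sub_self]
      exact (hLM.maps b ⟨hb2, hb1⟩).2.2.1
    · rw [hch.2 e he]
      exact hy1 e
  obtain ⟨U', δ', -, -, -, hLM', hsub⟩ := hLM.shrink (Filter.eventually_all.2 hev) one_pos
  have hyb : ∀ b ∈ Set.range (X2.tr (K := K) χ) ∩ U', ∀ e,
      y' e b = Real.log (b (ch e)) - Real.log (w (ch e)) := fun b hb => hsub hb
  obtain ⟨nn, μ, cμ, hN⟩ := exists_nn hC hLM'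
  obtain ⟨w2, U2, δ2, hX, -, hF⟩ := exists_cchart2 hC hLM' hN ch hch.1 hchw hyb
  have hC2 := chars2 hC hN
  haveI : Algebra.FiniteType K (A2 K χ' nn) := hC2.finiteType
  obtain ⟨D, hD, -, hDT, hDe, -, -, hDF⟩ := X2.exists_ok hC2 hX (wt2 hC hN hW)
  obtain ⟨B', c0', c', S⟩ := NDat.str hD
  obtain ⟨B, c0, c, h2⟩ := S8.cast hDe hDT hDF ⟨B', c0', c', arrFib_of_str hD S⟩
  have h3 : ArrFib K (fun e => rho2 hC hN (χ (ch e))) D.ρ (Sum.inl e0) B c0 c
      {z | X2.tr (chi2 K χ' nn) z = w2} := by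
    have e1 : (fun e => rho2 hC hN (χ (ch e))) =
        fun e => chi2 K χ' nn (⟨ch e, fun i => hN.nonneg (ch e) i⟩ : P2 nn) :=
      funext fun e => rho2_chi hC hN (ch e)
    rw [e1]
    exact h2
  have h4 := h3.descend (rho2 hC hN)
  have h5 : Ber.res (rho2 hC hN) '' {z | X2.tr (chi2 K χ' nn) z = w2} =
      {z | X2.tr χ z = w} := by
    rw [hF]
    ext z
    constructor
    · rintro ⟨z2, hz2, rfl⟩
      exact hz2
    · intro hz
      have hz' : X2.tr χ z = w := hz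
      obtain ⟨z2, hz2⟩ := surj2 hC hLM' hN z (by rw [hz']; exact hLM'.w_mem)
      exact ⟨z2, by
        show X2.tr χ (Ber.res (rho2 hC hN) z2) = w
        rw [hz2]
        exact hz', hz2⟩
  rw [h5] at h4
  exact ⟨_, _, inferInstance, inferInstance, _, y', M', Sum.inl e0, U', δ', L, ch, D.ρ, B, c0, c,
    hLM', hch.1, hchw, hyb, h4⟩

end Pool.Agent.TD.R
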